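import Pool.Agent.H6.LvdP2.Graph

/-! Near `2`: legal paths to `0` from states `4^t - u`. -/

set_option autoImplicit false

namespace Pool.Agent.H6.RP2

open Pool.Agent.H98.LvdP Pool.Agent.H6.LvdP2

/-- `n` moves from `w` to `w'` -/
def Steps (k : ℤ) (t : ℕ) : ℕ → ℤ → ℤ → Prop
  | 0, w, w' => w = w'
  | n + 1, w, w' => ∃ v, Move k t w v ∧ Steps k t n v w'

lemma Steps.reach {k : ℤ} {t m : ℕ} {w w' : ℤ} (h : Steps k t m w w') {n : ℕ}
    (hn : Reach k t n w) : Reach k t (n + m) w' := by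
  induction m generalizing n w with
  | zero =>
    simp only [Steps] at h
    subst h
    simpa using hn
  | succ m ih =>
    obtain ⟨v, hv, hs⟩ := h
    have h1 : Reach k t (n + 1) v := ⟨w, hn, hv⟩
    have := ih hs h1
    rwa [show n + (m + 1) = n + 1 + m by ring]

/-- the case `a = sign(k) b` -/
lemma move_of_abs {k w w' b d e : ℤ} {t : ℕ} (hb : b = -1 ∨ b = 0 ∨ b = 1) (hd : d = 0 ∨ d = 1)
    (he : e = 0 ∨ e = 1) (h : 4 * w' = w + |k| * b + 4 ^ t * d - e) : Move k t w w' := by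
  rcases abs_choice k with hk | hk
  · rw [hk] at h
    exact ⟨b, d, e, hb, hd, he, h⟩
  · rw [hk] at h
    exact ⟨-b, d, e, by omega, hd, he, by rw [h]; ring⟩

/-- from `4^s` to `0` -/
lemma steps_pow (k : ℤ) (t s : ℕ) : Steps k t (s + 1) (4 ^ s) 0 := by
  induction s with
  | zero =>
    exact ⟨0, ⟨0, 0, 1, by simp, by simp, by simp, by norm_num⟩, rfl⟩
  | succ s ih =>
    refine ⟨4 ^ s, ⟨0, 0, 0, by simp, by simp, by simp, by ring⟩, ih⟩

/-- from a state of `D_t` to `0` -/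
lemma steps_Dt (k : ℤ) (t : ℕ) {n : ℕ} {X : ℤ} (h : DigB n X) : Steps k t n X 0 := by
  induction n generalizing X with
  | zero => exact h
  | succ n ih =>
    obtain ⟨ε, m, hε, hm, rfl⟩ := h
    refine ⟨m, ⟨0, 0, ε, by simp, by simp, hε, by ring⟩, ih hm⟩

/-- the backward step `u → 4 u + c`, `c = |k| - 2·4^t` -/
lemma step_back {k u : ℤ} {t n : ℕ} (h : Steps k t n (4 ^ t - u) 0) :
    Steps k t (n + 1) (4 ^ t - (4 * u + (|k| - 2 * 4 ^ t))) 0 := by
  refine ⟨4 ^ t - u, move_of_abs (b := 1) (d := 1) (e := 0) (by simp) (by simp) (by simp) ?_, h⟩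
  ring

/-- The sequence `u_i` with `3 u_i = |c| (2·4^i + 1)` if `c < 0`, `3 u_i = c (4^(i+1) - 1)` if
`c > 0`. -/
lemma exit_seq {k : ℤ} (hk : Odd k) (t : ℕ) (i : ℕ) :
    ∃ u : ℤ, 2 * 4 ^ i ≤ 3 * u ∧ Steps k t (t + 2 + i) (4 ^ t - u) 0 ∧
      (i = 0 → u = |(|k| - 2 * 4 ^ t)|) ∧
      (|k| < 2 * 4 ^ t → 3 * u = (2 * 4 ^ t - |k|) * (2 * 4 ^ i + 1)) ∧
      (2 * 4 ^ t < |k| → 3 * u = (|k| - 2 * 4 ^ t) * (4 ^ (i + 1) - 1)) := by
  have hne : |k| ≠ 2 * 4 ^ t := by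
    intro h
    have h1 : |k| % 2 = 1 := by
      have hodd : Odd |k| := by
        rcases abs_choice k with h | h <;> rw [h]
        · exact hk
        · exact hk.neg
      exact Int.odd_iff.1 hodd
    omega
  have hp : (1 : ℤ) ≤ 4 ^ i := one_le_pow₀ (by norm_num)
  rcases lt_or_gt_of_ne hne with hlt | hgt
  · -- `c < 0`
    have key : ∀ i : ℕ, ∀ u : ℤ, 3 * u = (2 * 4 ^ t - |k|) * (2 * 4 ^ i + 1) →
        Steps k t (t + 2 + i) (4 ^ t - u) 0 := by
      intro i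
      induction i with
      | zero =>
        intro u hu
        have hu' : u = 2 * 4 ^ t - |k| := by
          have : (4 : ℤ) ^ 0 = 1 := pow_zero 4
          rw [this] at hu
          linarith
        subst hu'
        -- one move to `0`, then `t + 1` moves from `0` to `0`
        have hstay : ∀ n : ℕ, Steps k t n 0 0 := by
          intro n
          induction n with
          | zero => rfl
          | succ n ih => exact ⟨0, ⟨0, 0, 0, by simp, by simp, by simp, by ring⟩, ih⟩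
        refine ⟨0, move_of_abs (b := -1) (d := 1) (e := 0) (by simp) (by simp) (by simp) ?_,
          hstay _⟩
        ring
      | succ i ih =>
        intro u hu
        obtain ⟨v, hv⟩ : ∃ v : ℤ, 3 * v = (2 * 4 ^ t - |k|) * (2 * 4 ^ i + 1) := by
          have h3 : (3 : ℤ) ∣ 2 * 4 ^ i + 1 := by
            have : (4 : ℤ) ^ i % 3 = 1 := by
              have := Int.ModEq.pow i (show (4 : ℤ) ≡ 1 [ZMOD 3] by decide)
              rw [one_pow] at this
              exact this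
            omega
          obtain ⟨v, hv⟩ := Dvd.dvd.mul_left h3 (2 * 4 ^ t - |k|)
          exact ⟨v, hv.symm⟩
        have h1 := step_back (ih v hv)
        have h2 : 4 * v + (|k| - 2 * 4 ^ t) = u := by
          have h3 : (4 : ℤ) ^ (i + 1) = 4 * 4 ^ i := by ring
          rw [h3] at hu
          linarith
        rw [h2] at h1
        rwa [show t + 2 + (i + 1) = t + 2 + i + 1 by ring]
    have h3 : (3 : ℤ) ∣ 2 * 4 ^ i + 1 := by
      have : (4 : ℤ) ^ i % 3 = 1 := by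
        have := Int.ModEq.pow i (show (4 : ℤ) ≡ 1 [ZMOD 3] by decide)
        rw [one_pow] at this
        exact this
      omega
    obtain ⟨u, hu⟩ := Dvd.dvd.mul_left h3 (2 * 4 ^ t - |k|)
    refine ⟨u, ?_, key i u hu.symm, ?_, fun _ => hu.symm, fun h => absurd h (by omega)⟩
    · nlinarith
    · rintro rfl
      rw [pow_zero] at hu
      rw [abs_of_neg (by linarith)]
      linarith
  · -- `c > 0`
    have key : ∀ i : ℕ, ∀ u : ℤ, 3 * u = (|k| - 2 * 4 ^ t) * (4 ^ (i + 1) - 1) →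
        Steps k t (t + 2 + i) (4 ^ t - u) 0 := by
      intro i
      induction i with
      | zero =>
        intro u hu
        have h1 : Steps k t (t + 1) (4 ^ t - 0) 0 := by
          simpa using steps_pow k t t
        have h2 := step_back h1
        have h3 : 4 * 0 + (|k| - 2 * 4 ^ t) = u := by
          have : (4 : ℤ) ^ (0 + 1) = 4 := by norm_num
          rw [this] at hu
          linarith
        rw [h3] at h2
        exact h2
      | succ i ih =>
        intro u hu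
        obtain ⟨v, hv⟩ : ∃ v : ℤ, 3 * v = (|k| - 2 * 4 ^ t) * (4 ^ (i + 1) - 1) := by
          have h3 : (3 : ℤ) ∣ 4 ^ (i + 1) - 1 := by
            have : (4 : ℤ) ^ (i + 1) % 3 = 1 := by
              have := Int.ModEq.pow (i + 1) (show (4 : ℤ) ≡ 1 [ZMOD 3] by decide)
              rw [one_pow] at this
              exact this
            omega
          obtain ⟨v, hv⟩ := Dvd.dvd.mul_left h3 (|k| - 2 * 4 ^ t)
          exact ⟨v, hv.symm⟩
        have h1 := step_back (ih v hv)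
        have h2 : 4 * v + (|k| - 2 * 4 ^ t) = u := by
          have h3 : (4 : ℤ) ^ (i + 1 + 1) = 4 * 4 ^ (i + 1) := by ring
          rw [h3] at hu
          linarith
        rw [h2] at h1
        rwa [show t + 2 + (i + 1) = t + 2 + i + 1 by ring]
    have h3 : (3 : ℤ) ∣ 4 ^ (i + 1) - 1 := by
      have : (4 : ℤ) ^ (i + 1) % 3 = 1 := by
        have := Int.ModEq.pow (i + 1) (show (4 : ℤ) ≡ 1 [ZMOD 3] by decide)
        rw [one_pow] at this
        exact this
      omega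
    obtain ⟨u, hu⟩ := Dvd.dvd.mul_left h3 (|k| - 2 * 4 ^ t)
    refine ⟨u, ?_, key i u hu.symm, ?_, fun h => absurd h (by omega), fun _ => hu.symm⟩
    · have h4 : (4 : ℤ) ^ (i + 1) = 4 * 4 ^ i := by ring
      rw [h4] at hu
      nlinarith
    · rintro rfl
      have h4 : (4 : ℤ) ^ (0 + 1) = 4 := by norm_num
      rw [h4] at hu
      rw [abs_of_pos (by linarith)]
      linarith

/-- EXIT. For every odd `k` and every `U ≥ 1` with `24 U ≤ 4^t` there is a state `4^t - u` with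
`4 U ≤ u`, `u < 20 U` or `u = ||k| - 2·4^t|`, and at most `2 t + 2` moves from it to `0`. -/
theorem exit {k : ℤ} (hk : Odd k) {t : ℕ} {U : ℤ} (hU : 1 ≤ U)
    (hUN : 24 * U ≤ 4 ^ t) :
    ∃ u : ℤ, 4 * U ≤ u ∧ (u < 20 * U ∨ u = |(|k| - 2 * 4 ^ t)|) ∧
      ∃ n ≤ 2 * t + 2, Steps k t n (4 ^ t - u) 0 := by
  classical
  -- least `i` with `u_i ≥ 4U`
  have hex : ∃ i : ℕ, ∃ u : ℤ, 4 * U ≤ u ∧ Steps k t (t + 2 + i) (4 ^ t - u) 0 ∧
      (i = 0 → u = |(|k| - 2 * 4 ^ t)|) ∧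
      (|k| < 2 * 4 ^ t → 3 * u = (2 * 4 ^ t - |k|) * (2 * 4 ^ i + 1)) ∧
      (2 * 4 ^ t < |k| → 3 * u = (|k| - 2 * 4 ^ t) * (4 ^ (i + 1) - 1)) := by
    obtain ⟨u, h1, h2, h3⟩ := exit_seq hk t t
    exact ⟨t, u, by linarith, h2, h3⟩
  obtain ⟨i, ⟨u, h1, h2, h3, h4, h5⟩, hmin⟩ : ∃ i : ℕ, (∃ u : ℤ, 4 * U ≤ u ∧
      Steps k t (t + 2 + i) (4 ^ t - u) 0 ∧
      (i = 0 → u = |(|k| - 2 * 4 ^ t)|) ∧
      (|k| < 2 * 4 ^ t → 3 * u = (2 * 4 ^ t - |k|) * (2 * 4 ^ i + 1)) ∧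
      (2 * 4 ^ t < |k| → 3 * u = (|k| - 2 * 4 ^ t) * (4 ^ (i + 1) - 1))) ∧
      ∀ j < i, ¬ ∃ u : ℤ, 4 * U ≤ u ∧
      Steps k t (t + 2 + j) (4 ^ t - u) 0 ∧
      (j = 0 → u = |(|k| - 2 * 4 ^ t)|) ∧
      (|k| < 2 * 4 ^ t → 3 * u = (2 * 4 ^ t - |k|) * (2 * 4 ^ j + 1)) ∧
      (2 * 4 ^ t < |k| → 3 * u = (|k| - 2 * 4 ^ t) * (4 ^ (j + 1) - 1)) :=
    ⟨Nat.find hex, Nat.find_spec hex, fun j hj => Nat.find_min hex hj⟩
  have hit : i ≤ t := by
    by_contra hlt
    push Not at hlt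
    apply hmin t hlt
    obtain ⟨u, h1, h2, h3⟩ := exit_seq hk t t
    exact ⟨u, by linarith, h2, h3⟩
  refine ⟨u, h1, ?_, t + 2 + i, by omega, h2⟩
  rcases Nat.eq_zero_or_pos i with h0 | hpos
  · exact Or.inr (h3 h0)
  left
  obtain ⟨j, rfl⟩ : ∃ j, i = j + 1 := ⟨i - 1, by omega⟩
  obtain ⟨v, g1, g2, g3, g4, g5⟩ := exit_seq hk t j
  have hv : v < 4 * U := by
    by_contra hle
    push Not at hle
    exact hmin j (by omega) ⟨v, hle, g2, g3, g4, g5⟩
  have hp : (1 : ℤ) ≤ 4 ^ j := one_le_pow₀ (by norm_num)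
  have hne : |k| ≠ 2 * 4 ^ t := by
    intro h
    have h1 : |k| % 2 = 1 := by
      have hodd : Odd |k| := by
        rcases abs_choice k with h | h <;> rw [h]
        · exact hk
        · exact hk.neg
      exact Int.odd_iff.1 hodd
    omega
  rcases lt_or_gt_of_ne hne with hlt | hgt
  · have e1 := h4 hlt
    have e2 := g4 hlt
    have e3 : (4 : ℤ) ^ (j + 1) = 4 * 4 ^ j := by ring
    rw [e3] at e1
    nlinarith
  · have e1 := h5 hgt
    have e2 := g5 hgt
    have e3 : (4 : ℤ) ^ (j + 1 + 1) = 4 * (4 * 4 ^ j) := by ring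
    have e4 : (4 : ℤ) ^ (j + 1) = 4 * 4 ^ j := by ring
    rw [e3] at e1
    rw [e4] at e2
    nlinarith

end Pool.Agent.H6.RP2
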