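import Pool.Agent.H98.RP2.Flow
import Pool.Agent.H54.RP.Hit
import Pool.Agent.H6.RP2.Exit

/-! Near `2`: the hitting game, abstract part.  Zones of blocks: `CCb` (target), `Mid`, and three more
levels `Z3 ⊆ Z4 ⊆ Z5`. -/

set_option autoImplicit false

namespace Pool.Agent.H6.RP2

open Finset H54RP Pool.Agent.H98.RP2 Pool.Agent.H6.LvdP2

/-- the digits `0, …, i - 1` are in `{0, 1}`, the digit `i` is in `{2, 3}` -/
def Pd : ℕ → ℤ → Prop
  | 0, X => X % 4 = 2 ∨ X % 4 = 3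
  | i + 1, X => (X % 4 = 0 ∨ X % 4 = 1) ∧ Pd i (X / 4)

lemma Pd_add {i s : ℕ} (h : i < s) (Y d : ℤ) : Pd i (Y + 4 ^ s * d) ↔ Pd i Y := by
  induction i generalizing s Y with
  | zero =>
    obtain ⟨r, rfl⟩ : ∃ r, s = r + 1 := ⟨s - 1, by omega⟩
    have e : (4 : ℤ) ^ (r + 1) * d = 4 * (4 ^ r * d) := by ring
    simp only [Pd, e]
    constructor <;> intro h <;> omega
  | succ i ih =>
    obtain ⟨r, rfl⟩ : ∃ r, s = r + 1 := ⟨s - 1, by omega⟩
    have e : (4 : ℤ) ^ (r + 1) * d = 4 * (4 ^ r * d) := by ring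
    have e2 : (Y + 4 * (4 ^ r * d)) / 4 = Y / 4 + 4 ^ r * d := by omega
    have e3 : (Y + 4 * (4 ^ r * d)) % 4 = Y % 4 := by omega
    simp only [Pd, e, e2, e3]
    rw [ih (by omega)]

lemma exists_Pd (n : ℕ) (X : ℤ) (h : ∀ i < n, ¬ Pd i X) :
    ∃ D y : ℤ, DigB n D ∧ X = D + 4 ^ n * y := by
  induction n generalizing X with
  | zero => exact ⟨0, X, rfl, by simp⟩
  | succ n ih =>
    have h0 := h 0 (by omega)
    simp only [Pd] at h0
    obtain ⟨D, y, hD, hX⟩ := ih (X / 4) (fun i hi hP => h (i + 1) (by omega) (by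
      simp only [Pd]
      exact ⟨by omega, hP⟩))
    refine ⟨X % 4 + 4 * D, y, ⟨X % 4, D, by omega, hD, rfl⟩, ?_⟩
    have e : (4 : ℤ) ^ (n + 1) * y = 4 * (4 ^ n * y) := by ring
    rw [e]
    omega

lemma DigB_bound {n : ℕ} {x : ℤ} (h : DigB n x) : 0 ≤ x ∧ 3 * x + 1 ≤ 4 ^ n := by
  induction n generalizing x with
  | zero =>
    simp only [DigB] at h
    subst h
    simp
  | succ n ih =>
    obtain ⟨ε, m, hε, hm, rfl⟩ := h
    obtain ⟨h1, h2⟩ := ih hm
    have e : (4 : ℤ) ^ (n + 1) = 4 * 4 ^ n := by ring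
    rw [e]
    omega

section

variable {ι : Type*} [Fintype ι] {c : ι → ℤ}

lemma eta_mono_one (F : Flow c) (C : ℤ → Prop) (m : ℕ) (X : ℤ) :
    eta F C m X ≤ eta F C (m + 1) X := by
  classical
  induction m generalizing X with
  | zero =>
    by_cases hC : C X
    · rw [eta_of_mem F hC, eta_of_mem F hC]
    · have : eta F C 0 X = 0 := by
        unfold eta
        rw [if_neg hC]
      rw [this]
      exact eta_nonneg F C _ X
  | succ m ih =>
    by_cases hC : C X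
    · rw [eta_of_mem F hC, eta_of_mem F hC]
    · have e1 : eta F C (m + 1) X = ∑ v, F.K X v * eta F C m (T c v X) := by
        conv_lhs => unfold eta
        rw [if_neg hC]
      have e2 : eta F C (m + 1 + 1) X = ∑ v, F.K X v * eta F C (m + 1) (T c v X) := by
        conv_lhs => unfold eta
        rw [if_neg hC]
      rw [e1, e2]
      exact sum_le_sum fun v _ => mul_le_mul_of_nonneg_left (ih _) (F.K_nonneg X v)

lemma eta_mono (F : Flow c) (C : ℤ → Prop) {m m' : ℕ} (h : m ≤ m') (X : ℤ) :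
    eta F C m X ≤ eta F C m' X := by
  induction m', h using Nat.le_induction with
  | base => exact le_rfl
  | succ n _ ih => exact ih.trans (eta_mono_one F C n X)

/-- a set closed under positive arcs is never entered -/
lemma not_enter (F : Flow c) (S : ℤ → Prop)
    (hcl : ∀ X, S X → ∀ v, F.W X v ≠ 0 → S (T c v X)) {X : ℤ} {v : ι} (hX : ¬ S X)
    (hW : F.W X v ≠ 0) : ¬ S (T c v X) := by
  classical
  intro hT
  have hpush := F.push (fun Y => if S Y then 1 else 0)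
  have hR : ∑ Y ∈ F.supp, F.w Y * (if S Y then 1 else 0) =
      ∑ Y ∈ F.supp, ∑ v, F.W Y v * (if S Y then 1 else 0) := by
    refine sum_congr rfl fun Y _ => ?_
    unfold Flow.w
    rw [sum_mul]
  rw [hR] at hpush
  have hle : ∀ Y ∈ F.supp, ∑ v, F.W Y v * (if S Y then (1 : ℝ) else 0) ≤
      ∑ v, F.W Y v * (if S (T c v Y) then (1 : ℝ) else 0) := by
    intro Y _
    refine sum_le_sum fun v _ => ?_
    by_cases hS : S Y
    · by_cases hWY : F.W Y v = 0
      · rw [hWY]; simp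
      · rw [if_pos hS, if_pos (hcl Y hS v hWY)]
    · rw [if_neg hS, mul_zero]
      apply mul_nonneg (F.nonneg Y v)
      split_ifs <;> norm_num
  have hXs : X ∈ F.supp := by
    by_contra hn
    exact hW (F.off X hn v)
  have heq := (sum_eq_sum_iff_of_le hle).1 hpush.symm X hXs
  rw [if_neg hX] at heq
  simp only [mul_zero, sum_const_zero] at heq
  have h2 : ∑ v, F.W X v * (if S (T c v X) then (1 : ℝ) else 0) = 0 := heq.symm
  have h3 := (sum_eq_zero_iff_of_nonneg (fun v _ => by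
    apply mul_nonneg (F.nonneg X v)
    split_ifs <;> norm_num)).1 h2 v (mem_univ v)
  rw [if_pos hT, mul_one] at h3
  exact hW h3

end

section

variable {C : Chn} (h : C.Ex) (hw : Chn.Wok C.P) (σ : Bool)

/-- one step of the game -/
lemma step_bound {G : ℤ → ℝ} (hG : ∀ Y, 0 ≤ G Y) {q : ℝ} (hq : 0 ≤ q) {X : ℤ}
    (hX : X ∈ (Chn.flow C h hw σ).supp)
    (H : ∀ b : ℤ, (b = -1 ∨ b = 0 ∨ b = 1) → 1 ≤ C.mass σ b X →
      (∃ d : ℤ, (d = 0 ∨ d = 1) ∧ 1 ≤ C.Dd d (blk X + C.P.Q * b) ∧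
        q ≤ G (blk X + C.P.Q * b + C.P.N * d)) ∨
      (∀ d : ℤ, (d = 0 ∨ d = 1) → 1 ≤ C.Dd d (blk X + C.P.Q * b) →
        q / 8 ≤ G (blk X + C.P.Q * b + C.P.N * d))) :
    q / 8 ≤ ∑ v, (Chn.flow C h hw σ).K X v * G (T (cL C.P.Q C.P.N) v X) := by
  set F := Chn.flow C h hw σ with hF
  -- in terms of `W`
  have hwX : 0 < F.w X := by
    rw [Chn.flow_w]
    have h1 := Chn.w_pos hw (Chn.mem_sup.1 hX)
    have : (1 : ℝ) ≤ C.P.w (blk X) := by exact_mod_cast h1
    linarith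
  have e1 : ∑ v, F.K X v * G (T (cL C.P.Q C.P.N) v X) =
      (∑ v, C.W σ X v * G (T (cL C.P.Q C.P.N) v X)) / F.w X := by
    rw [sum_div]
    refine sum_congr rfl fun v _ => ?_
    unfold Flow.K
    have : F.W X v = C.W σ X v := rfl
    rw [this]
    ring
  rw [e1, le_div_iff₀ hwX]
  have e2 : F.w X = ∑ v, C.W σ X v := rfl
  rw [e2, mul_sum]
  have s1 := sum_Lt (fun b d : ℤ => q / 8 * ((C.mass σ b X : ℝ) *
      (C.Dd d (blk X + C.P.Q * b) : ℝ) / (2 * (C.P.r C.np C.nm (blk X + C.P.Q * b) : ℝ))))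
  have s2 := sum_Lt (fun b d : ℤ => ((C.mass σ b X : ℝ) *
      (C.Dd d (blk X + C.P.Q * b) : ℝ) / (2 * (C.P.r C.np C.nm (blk X + C.P.Q * b) : ℝ))) *
      G (blk X + C.P.Q * b + C.P.N * d))
  have t1 : ∑ v, q / 8 * C.W σ X v = ∑ v : Lt, q / 8 * ((C.mass σ (bb v) X : ℝ) *
      (C.Dd (dd v) (blk X + C.P.Q * bb v) : ℝ) /
      (2 * (C.P.r C.np C.nm (blk X + C.P.Q * bb v) : ℝ))) := rfl
  have t2 : ∑ v, C.W σ X v * G (T (cL C.P.Q C.P.N) v X) = ∑ v : Lt, ((C.mass σ (bb v) X : ℝ) *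
      (C.Dd (dd v) (blk X + C.P.Q * bb v) : ℝ) /
      (2 * (C.P.r C.np C.nm (blk X + C.P.Q * bb v) : ℝ))) *
      G (blk X + C.P.Q * bb v + C.P.N * dd v) := by
    refine sum_congr rfl fun v _ => ?_
    have : T (cL C.P.Q C.P.N) v X = blk X + C.P.Q * bb v + C.P.N * dd v := by
      unfold T cL
      ring
    rw [this]
    rfl
  rw [t1, s1, t2, s2]
  -- for every `b`
  have key : ∀ b : ℤ, (b = -1 ∨ b = 0 ∨ b = 1) →
      q / 8 * ((C.mass σ b X : ℝ) * (C.Dd 0 (blk X + C.P.Q * b) : ℝ) /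
        (2 * (C.P.r C.np C.nm (blk X + C.P.Q * b) : ℝ))) +
      q / 8 * ((C.mass σ b X : ℝ) * (C.Dd 1 (blk X + C.P.Q * b) : ℝ) /
        (2 * (C.P.r C.np C.nm (blk X + C.P.Q * b) : ℝ))) ≤
      ((C.mass σ b X : ℝ) * (C.Dd 0 (blk X + C.P.Q * b) : ℝ) /
        (2 * (C.P.r C.np C.nm (blk X + C.P.Q * b) : ℝ))) *
        G (blk X + C.P.Q * b + C.P.N * (0 : ℤ)) +
      ((C.mass σ b X : ℝ) * (C.Dd 1 (blk X + C.P.Q * b) : ℝ) /
        (2 * (C.P.r C.np C.nm (blk X + C.P.Q * b) : ℝ))) *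
        G (blk X + C.P.Q * b + C.P.N * (1 : ℤ)) := by
    intro b hb
    have m0 := Chn.mass_nonneg h σ b X
    by_cases hm : C.mass σ b X = 0
    · rw [hm]; simp
    have hm1 : 1 ≤ C.mass σ b X := by omega
    have Hb := H b hb hm1
    have hr1 : C.mass σ b X ≤ C.P.r C.np C.nm (blk X + C.P.Q * b) :=
      (Chn.mass_le_brk h σ b X).trans (Chn.brk_le_r h hb _)
    set V := blk X + C.P.Q * b with hV
    have d0 := Chn.Dd_nonneg h 0 V
    have d1 := Chn.Dd_nonneg h 1 V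
    have ds := Chn.Dd_sum h V
    have hr8 : C.P.r C.np C.nm V ≤ 8 := by
      have a6 := Chn.Dd_stat (C := C) V
      have a7 := Chn.Dd_stat (C := C) (V + C.P.N)
      have a9 := Chn.Dd_nonneg h 1 (V - C.P.N)
      have a10 := Chn.Dd_nonneg h 0 (V + C.P.N)
      have a11 := Chn.w_le hw (blk V)
      have a12 := Chn.w_le hw (blk (V + C.P.N))
      rw [add_sub_cancel_right] at a7
      omega
    have m1R : (1 : ℝ) ≤ C.mass σ b X := by exact_mod_cast hm1
    have d0R : (0 : ℝ) ≤ C.Dd 0 V := by exact_mod_cast d0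
    have d1R : (0 : ℝ) ≤ C.Dd 1 V := by exact_mod_cast d1
    have dsR : (C.Dd 0 V : ℝ) + C.Dd 1 V = C.P.r C.np C.nm V := by exact_mod_cast ds
    have r1R : (1 : ℝ) ≤ C.P.r C.np C.nm V := by
      have : (1 : ℤ) ≤ C.P.r C.np C.nm V := by omega
      exact_mod_cast this
    have r8R : (C.P.r C.np C.nm V : ℝ) ≤ 8 := by exact_mod_cast hr8
    set m : ℝ := (C.mass σ b X : ℝ) with hmR
    set r : ℝ := (C.P.r C.np C.nm V : ℝ) with hrR
    set x0 : ℝ := (C.Dd 0 V : ℝ) with hx0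
    set x1 : ℝ := (C.Dd 1 V : ℝ) with hx1
    have g0 := hG (V + C.P.N * (0 : ℤ))
    have g1 := hG (V + C.P.N * (1 : ℤ))
    have hrpos : 0 < r := by linarith
    have hmpos : 0 < m := by linarith
    -- multiply by `2 r / m`
    have hcl : ∀ y0 y1 : ℝ, q / 8 * x0 + q / 8 * x1 ≤ x0 * y0 + x1 * y1 →
        q / 8 * (m * x0 / (2 * r)) + q / 8 * (m * x1 / (2 * r)) ≤
        m * x0 / (2 * r) * y0 + m * x1 / (2 * r) * y1 := by
      intro y0 y1 hy
      have hf : 0 ≤ m / (2 * r) := by positivity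
      calc q / 8 * (m * x0 / (2 * r)) + q / 8 * (m * x1 / (2 * r)) =
          m / (2 * r) * (q / 8 * x0 + q / 8 * x1) := by ring
        _ ≤ m / (2 * r) * (x0 * y0 + x1 * y1) := mul_le_mul_of_nonneg_left hy hf
        _ = _ := by ring
    apply hcl
    rcases Hb with ⟨d, hd, hd1, hd2⟩ | hall
    · have hsum : q / 8 * x0 + q / 8 * x1 ≤ q := by
        have : q / 8 * x0 + q / 8 * x1 = q / 8 * r := by rw [← mul_add, dsR]
        rw [this]
        nlinarith
      rcases hd with rfl | rfl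
      · have hx : (1 : ℝ) ≤ x0 := by rw [hx0]; exact_mod_cast hd1
        have p1 : q ≤ x0 * G (V + C.P.N * (0 : ℤ)) := by nlinarith
        have p2 : 0 ≤ x1 * G (V + C.P.N * (1 : ℤ)) := mul_nonneg d1R g1
        linarith
      · have hx : (1 : ℝ) ≤ x1 := by rw [hx1]; exact_mod_cast hd1
        have p1 : q ≤ x1 * G (V + C.P.N * (1 : ℤ)) := by nlinarith
        have p2 : 0 ≤ x0 * G (V + C.P.N * (0 : ℤ)) := mul_nonneg d0R g0
        linarith
    · have p0 : q / 8 * x0 ≤ x0 * G (V + C.P.N * (0 : ℤ)) := by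
        by_cases hz : C.Dd 0 V = 0
        · rw [hx0, hz]; simp
        · have := hall 0 (by simp) (by omega)
          rw [mul_comm]
          exact mul_le_mul_of_nonneg_left this d0R
      have p1 : q / 8 * x1 ≤ x1 * G (V + C.P.N * (1 : ℤ)) := by
        by_cases hz : C.Dd 1 V = 0
        · rw [hx1, hz]; simp
        · have := hall 1 (by simp) (by omega)
          rw [mul_comm]
          exact mul_le_mul_of_nonneg_left this d1R
      linarith
  have k1 := key (-1) (by simp)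
  have k2 := key 0 (by simp)
  have k3 := key 1 (by simp)
  linarith

/-- `D_t` is closed under positive arcs -/
lemma Dt_closed {s : ℕ} (hs : C.P.N = 4 ^ s)
    (hnp : ∀ j, 0 ≤ j → j ≤ C.P.M → C.np j = 0 ∧ C.nm j = 0) (X : ℤ) (hX : DigB (s + 1) X)
    (v : Lt) (hW : (Chn.flow C h hw σ).W X v ≠ 0) :
    DigB (s + 1) (T (cL C.P.Q C.P.N) v X) := by
  obtain ⟨ε, j, hε, hj, rfl⟩ := hX
  have hblk : blk (ε + 4 * j) = j := by unfold blk; omega
  obtain ⟨b1, b2⟩ := DigB_bound hj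
  have hN := hw.hN
  obtain ⟨n1, n2⟩ := hnp j b1 (by rw [← hs] at b2; omega)
  have hb0 : bb v = 0 := by
    rcases bb_cases v with hb | hb | hb
    · exfalso
      apply hW
      have : C.mass σ (bb v) (ε + 4 * j) = 0 := by
        rw [hb]
        unfold Chn.mass ty
        rw [hblk]
        rcases hε with rfl | rfl <;> cases σ <;> norm_num [n2]
      change C.W σ (ε + 4 * j) v = 0
      unfold Chn.W
      rw [this]
      simp
    · exact hb
    · exfalso
      apply hW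
      have : C.mass σ (bb v) (ε + 4 * j) = 0 := by
        rw [hb]
        unfold Chn.mass ty
        rw [hblk]
        rcases hε with rfl | rfl <;> cases σ <;> norm_num [n1]
      change C.W σ (ε + 4 * j) v = 0
      unfold Chn.W
      rw [this]
      simp
  have hT : T (cL C.P.Q C.P.N) v (ε + 4 * j) = j + 4 ^ s * dd v := by
    unfold T cL
    rw [hblk, hb0, hs]
    ring
  rw [hT]
  exact DigB_append hj (DigB_one (dd_cases v))

/-- The hitting game. -/
theorem hit_abs {s : ℕ} (hs : C.P.N = 4 ^ s) (CCb Mid Z3 Z4 Z5 : ℤ → Prop)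
    (hnp : ∀ j, 0 ≤ j → j ≤ C.P.M → C.np j = 0 ∧ C.nm j = 0)
    (mid_event : ∀ j, Mid j → ∀ b : ℤ, (b = -1 ∨ b = 1) → ∃ d : ℤ, (d = 0 ∨ d = 1) ∧
      1 ≤ C.Dd d (j + C.P.Q * b) ∧ CCb (blk (j + C.P.Q * b + C.P.N * d)))
    (mid_non : ∀ j, Mid j → ∀ d : ℤ, (d = 0 ∨ d = 1) → Mid (blk (j + C.P.N * d)))
    (z3 : ∀ j, Z3 j → ∀ b : ℤ, (b = -1 ∨ b = 0 ∨ b = 1) → ∃ d : ℤ, (d = 0 ∨ d = 1) ∧
      1 ≤ C.Dd d (j + C.P.Q * b) ∧
      (CCb (blk (j + C.P.Q * b + C.P.N * d)) ∨ Mid (blk (j + C.P.Q * b + C.P.N * d))))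
    (z4 : ∀ j, Z4 j → ∀ b : ℤ, (b = -1 ∨ b = 0 ∨ b = 1) → ∃ d : ℤ, (d = 0 ∨ d = 1) ∧
      1 ≤ C.Dd d (j + C.P.Q * b) ∧
      (CCb (blk (j + C.P.Q * b + C.P.N * d)) ∨ Mid (blk (j + C.P.Q * b + C.P.N * d)) ∨
        Z3 (blk (j + C.P.Q * b + C.P.N * d))))
    (z5 : ∀ j, Z5 j → ∀ b : ℤ, (b = -1 ∨ b = 0 ∨ b = 1) → ∃ d : ℤ, (d = 0 ∨ d = 1) ∧
      1 ≤ C.Dd d (j + C.P.Q * b) ∧
      (CCb (blk (j + C.P.Q * b + C.P.N * d)) ∨ Mid (blk (j + C.P.Q * b + C.P.N * d)) ∨
        Z3 (blk (j + C.P.Q * b + C.P.N * d)) ∨ Z4 (blk (j + C.P.Q * b + C.P.N * d))))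
    (cover : ∀ j, -2 * C.P.M + C.P.g ≤ j → j < C.P.N - C.P.g →
      CCb j ∨ Mid j ∨ Z3 j ∨ Z4 j ∨ Z5 j)
    {X : ℤ} (hX : X ∈ (Chn.flow C h hw σ).supp) (hXD : ¬ DigB (s + 1) X) :
    1 / 4096 ≤ eta (Chn.flow C h hw σ) (fun Y => CCb (blk Y)) (s + 4) X := by
  set F := Chn.flow C h hw σ with hF
  have hN := hw.hN
  have hg0 := hw.g0
  have hcl : ∀ X, DigB (s + 1) X → ∀ v, F.W X v ≠ 0 → DigB (s + 1) (T (cL C.P.Q C.P.N) v X) :=
    fun X hX v hW => Dt_closed h hw σ hs hnp X hX v hW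
  -- arcs with positive data
  have harc : ∀ X b d : ℤ, (b = -1 ∨ b = 0 ∨ b = 1) → (d = 0 ∨ d = 1) → 1 ≤ C.mass σ b X →
      1 ≤ C.Dd d (blk X + C.P.Q * b) → X ∈ F.supp → ¬ DigB (s + 1) X →
      blk X + C.P.Q * b + C.P.N * d ∈ F.supp ∧
        ¬ DigB (s + 1) (blk X + C.P.Q * b + C.P.N * d) := by
    intro X b d hb hd hm hD hXs hXD
    obtain ⟨v, hv1, hv2⟩ : ∃ v : Lt, bb v = b ∧ dd v = d := by
      rcases hb with rfl | rfl | rfl <;> rcases hd with rfl | rfl
      · exact ⟨(0, 0), by decide, by decide⟩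
      · exact ⟨(0, 1), by decide, by decide⟩
      · exact ⟨(1, 0), by decide, by decide⟩
      · exact ⟨(1, 1), by decide, by decide⟩
      · exact ⟨(2, 0), by decide, by decide⟩
      · exact ⟨(2, 1), by decide, by decide⟩
    have hW := Chn.W_ge h hw σ X v (by rw [hv1]; exact hm) (by rw [hv1, hv2]; exact hD)
    have hW0 : F.W X v ≠ 0 := by
      change C.W σ X v ≠ 0
      linarith
    have hT : T (cL C.P.Q C.P.N) v X = blk X + C.P.Q * b + C.P.N * d := by
      unfold T cL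
      rw [hv1, hv2]
      ring
    rw [← hT]
    exact ⟨F.T_mem_supp hW0, not_enter F _ hcl hXD hW0⟩
  -- existence of the forced event
  have hdepth : ∀ X, X ∈ F.supp → ¬ DigB (s + 1) X → ∃ i ≤ s, Pd i X := by
    intro X hXs hXD
    by_contra hcon
    push Not at hcon
    obtain ⟨D, y, hD, hXe⟩ := exists_Pd (s + 1) X (fun i hi => hcon i (by omega))
    obtain ⟨b1, b2⟩ := DigB_bound hD
    obtain ⟨c1, c2⟩ := Chn.mem_sup.1 hXs
    have e : (4 : ℤ) ^ (s + 1) = 4 * C.P.N := by rw [hs]; ring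
    rw [e] at b2 hXe
    have hN0 : 0 < C.P.N := by rw [hs]; positivity
    unfold blk at c1 c2
    have hy : y = 0 := by
      rcases lt_trichotomy y 0 with hy | hy | hy
      · exfalso
        have : 4 * C.P.N * y ≤ 4 * C.P.N * (-1) := by nlinarith
        omega
      · exact hy
      · exfalso
        have : 4 * C.P.N * 1 ≤ 4 * C.P.N * y := by nlinarith
        omega
    rw [hy] at hXe
    apply hXD
    rw [hXe]
    simpa using hD
  set E := eta F (fun Y => CCb (blk Y)) with hE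
  have hE0 : ∀ m Y, 0 ≤ E m Y := fun m Y => eta_nonneg F _ m Y
  have hEC : ∀ m Y, CCb (blk Y) → E m Y = 1 := fun m Y hY =>
    eta_of_mem F (C := fun Y => CCb (blk Y)) hY m
  have hEs : ∀ m Y, ¬ CCb (blk Y) → E (m + 1) Y =
      ∑ v, F.K Y v * E m (T (cL C.P.Q C.P.N) v Y) := by
    intro m Y hY
    classical
    rw [hE]
    conv_lhs => unfold eta
    rw [if_neg hY]
  -- `Mid`
  have hmid : ∀ i, i ≤ s → ∀ X, X ∈ F.supp → ¬ DigB (s + 1) X → Mid (blk X) → Pd i X →
      1 / 8 ≤ E (i + 1) X := by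
    intro i
    induction i with
    | zero =>
      intro _ X hXs hXD hM hP
      by_cases hC : CCb (blk X)
      · rw [hEC _ _ hC]; norm_num
      rw [hEs _ _ hC]
      refine step_bound h hw σ (hE0 0) (by norm_num) hXs ?_
      intro b hb hm
      left
      -- the event is forced
      have hb' : b = -1 ∨ b = 1 := by
        rcases hb with hb | hb | hb
        · exact Or.inl hb
        · exfalso
          subst hb
          simp only [Pd] at hP
          unfold Chn.mass ty blk at hm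
          cases σ
          · simp only [Bool.false_eq_true, if_false] at hm
            split_ifs at hm <;> omega
          · simp only [if_true] at hm
            split_ifs at hm <;> omega
        · exact Or.inr hb
      obtain ⟨d, hd, hD, hT⟩ := mid_event (blk X) hM b hb'
      exact ⟨d, hd, hD, by rw [hEC _ _ hT]⟩
    | succ i ih =>
      intro hi X hXs hXD hM hP
      by_cases hC : CCb (blk X)
      · rw [hEC _ _ hC]; norm_num
      rw [hEs _ _ hC]
      refine step_bound h hw σ (hE0 (i + 1)) (by norm_num) hXs ?_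
      intro b hb hm
      by_cases hb0 : b = 0
      · right
        intro d hd hD
        obtain ⟨g1, g2⟩ := harc X b d hb hd hm hD hXs hXD
        refine ih (by omega) _ g1 g2 ?_ ?_
        · rw [hb0, mul_zero, add_zero]
          exact mid_non _ hM d hd
        · rw [hb0, mul_zero, add_zero, hs]
          rw [Pd_add (by omega)]
          obtain ⟨h1, h2⟩ := hP
          have : blk X = X / 4 := by unfold blk; omega
          rw [this]
          exact h2
      · left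
        obtain ⟨d, hd, hD, hT⟩ := mid_event (blk X) hM b (by omega)
        exact ⟨d, hd, hD, by rw [hEC _ _ hT]⟩
  have hmid' : ∀ X, X ∈ F.supp → ¬ DigB (s + 1) X → Mid (blk X) → 1 / 8 ≤ E (s + 1) X := by
    intro X hXs hXD hM
    obtain ⟨i, hi, hP⟩ := hdepth X hXs hXD
    exact (hmid i hi X hXs hXD hM hP).trans (eta_mono F _ (by omega) X)
  -- level 3
  have h3 : ∀ X, X ∈ F.supp → ¬ DigB (s + 1) X → Z3 (blk X) → 1 / 64 ≤ E (s + 2) X := by
    intro X hXs hXD hZ
    by_cases hC : CCb (blk X)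
    · rw [hEC _ _ hC]; norm_num
    rw [hEs _ _ hC]
    have := step_bound h hw σ (hE0 (s + 1)) (q := 1 / 8) (by norm_num) hXs (by
      intro b hb hm
      left
      obtain ⟨d, hd, hD, hT⟩ := z3 (blk X) hZ b hb
      obtain ⟨g1, g2⟩ := harc X b d hb hd hm hD hXs hXD
      refine ⟨d, hd, hD, ?_⟩
      rcases hT with hT | hT
      · rw [hEC _ _ hT]; norm_num
      · exact hmid' _ g1 g2 hT)
    linarith
  have h4 : ∀ X, X ∈ F.supp → ¬ DigB (s + 1) X → Z4 (blk X) → 1 / 512 ≤ E (s + 3) X := by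
    intro X hXs hXD hZ
    by_cases hC : CCb (blk X)
    · rw [hEC _ _ hC]; norm_num
    rw [hEs _ _ hC]
    have := step_bound h hw σ (hE0 (s + 2)) (q := 1 / 64) (by norm_num) hXs (by
      intro b hb hm
      left
      obtain ⟨d, hd, hD, hT⟩ := z4 (blk X) hZ b hb
      obtain ⟨g1, g2⟩ := harc X b d hb hd hm hD hXs hXD
      refine ⟨d, hd, hD, ?_⟩
      rcases hT with hT | hT | hT
      · rw [hEC _ _ hT]; norm_num
      · refine le_trans ?_ ((hmid' _ g1 g2 hT).trans (eta_mono F _ (by omega) _))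
        norm_num
      · exact h3 _ g1 g2 hT)
    linarith
  have h5 : ∀ X, X ∈ F.supp → ¬ DigB (s + 1) X → Z5 (blk X) → 1 / 4096 ≤ E (s + 4) X := by
    intro X hXs hXD hZ
    by_cases hC : CCb (blk X)
    · rw [hEC _ _ hC]; norm_num
    rw [hEs _ _ hC]
    have := step_bound h hw σ (hE0 (s + 3)) (q := 1 / 512) (by norm_num) hXs (by
      intro b hb hm
      left
      obtain ⟨d, hd, hD, hT⟩ := z5 (blk X) hZ b hb
      obtain ⟨g1, g2⟩ := harc X b d hb hd hm hD hXs hXD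
      refine ⟨d, hd, hD, ?_⟩
      rcases hT with hT | hT | hT | hT
      · rw [hEC _ _ hT]; norm_num
      · refine le_trans ?_ ((hmid' _ g1 g2 hT).trans (eta_mono F _ (by omega) _))
        norm_num
      · refine le_trans ?_ ((h3 _ g1 g2 hT).trans (eta_mono F _ (by omega) _))
        norm_num
      · exact h4 _ g1 g2 hT)
    linarith
  -- conclusion
  obtain ⟨c1, c2⟩ := Chn.mem_sup.1 hX
  rcases cover _ c1 c2 with hc | hc | hc | hc | hc
  · rw [hEC _ _ hc]; norm_num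
  · refine le_trans ?_ ((hmid' X hX hXD hc).trans (eta_mono F _ (by omega) _))
    norm_num
  · refine le_trans ?_ ((h3 X hX hXD hc).trans (eta_mono F _ (by omega) _))
    norm_num
  · refine le_trans ?_ ((h4 X hX hXD hc).trans (eta_mono F _ (by omega) _))
    norm_num
  · exact h5 X hX hXD hc

end

end Pool.Agent.H6.RP2
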