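import Pool.Agent.H98.RP2.Flow

/-! Near `2`: the mirror `j → M - j` of the chain. -/

set_option autoImplicit false

namespace Pool.Agent.H6.RP2

open Pool.Agent.H98.RP2 Par

lemma st_flip (x : ℤ) : st x = 1 - st (-1 - x) := by
  unfold st
  split_ifs <;> omega

lemma iv_mirror (a b M V : ℤ) : iv a b (M - V) = iv (M + 1 - b) (M + 1 - a) V := by
  unfold iv
  rw [st_flip (M - V - a), st_flip (M - V - b),
    show -1 - (M - V - a) = V - (M + 1 - a) by ring, show -1 - (M - V - b) = V - (M + 1 - b) by ring]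
  ring

lemma iv_shift (a b N V : ℤ) : iv a b (V - N) = iv (a + N) (b + N) V := by
  unfold iv
  rw [show V - N - a = V - (a + N) by ring, show V - N - b = V - (b + N) by ring]

lemma thA_mirror (P : Par) (hN : P.N = 3 * P.M + 1) (V : ℤ) :
    P.thA (P.M - V) = -P.thA (V - P.N) := by
  obtain ⟨N, M, D, g⟩ := P
  simp only at hN
  subst hN
  have hm : ∀ a b, iv a b (M - V) = iv (M + 1 - b) (M + 1 - a) V := fun a b => iv_mirror a b M V
  have hs : ∀ a b, iv a b (V - (3 * M + 1)) = iv (a + (3 * M + 1)) (b + (3 * M + 1)) V :=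
    fun a b => iv_shift a b _ V
  simp only [thA, hm, hs, al, be]
  ring_nf

lemma thB_mirror (P : Par) (hN : P.N = 3 * P.M + 1) (V : ℤ) :
    P.thB (P.M - V) = -P.thB (V - P.N) := by
  obtain ⟨N, M, D, g⟩ := P
  simp only at hN
  subst hN
  have hm : ∀ a b, iv a b (M - V) = iv (M + 1 - b) (M + 1 - a) V := fun a b => iv_mirror a b M V
  have hs : ∀ a b, iv a b (V - (3 * M + 1)) = iv (a + (3 * M + 1)) (b + (3 * M + 1)) V :=
    fun a b => iv_shift a b _ V
  simp only [thB, hm, hs, ua, ub]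
  ring_nf

lemma G_mirror (P : Par) (hN : P.N = 3 * P.M + 1) (V : ℤ) :
    P.G (P.M - V) = 2 - P.G (V - P.N) := by
  obtain ⟨N, M, D, g⟩ := P
  simp only at hN
  subst hN
  simp only [G]
  rw [st_flip (M - V - (-2 * M + g)), st_flip (M - V - -g)]
  ring_nf

lemma ZG_mirror (P : Par) (hN : P.N = 3 * P.M + 1) (V : ℤ) :
    P.ZG (P.M - V) = 8 - P.ZG V := by
  obtain ⟨N, M, D, g⟩ := P
  simp only at hN
  subst hN
  simp only [ZG]
  rw [st_flip (M - V + 1 - 4 * (-2 * M + g)), st_flip (M - V + 1 - 4 * -g),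
    st_flip (M - V + 1 - 4 * (-2 * M + g) - (3 * M + 1)), st_flip (M - V + 1 - 4 * -g - (3 * M + 1)),
    st_flip (M - V + 1 - 4 * (-2 * M + g) - 2 * (3 * M + 1)),
    st_flip (M - V + 1 - 4 * -g - 2 * (3 * M + 1)),
    st_flip (M - V + 1 - 4 * (-2 * M + g) - 3 * (3 * M + 1)),
    st_flip (M - V + 1 - 4 * -g - 3 * (3 * M + 1))]
  ring_nf

lemma D_mirror (P : Par) (hN : P.N = 3 * P.M + 1) {th : ℤ → ℤ}
    (hth : ∀ V, th (P.M - V) = -th (V - P.N)) (V : ℤ) :
    P.D1 th (P.M - V) = P.D0 th V := by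
  have h1 := G_mirror P hN V
  have h2 := G_mirror P hN (V + P.Q)
  have h3 := G_mirror P hN (V - P.Q)
  have h4 := ZG_mirror P hN V
  unfold D1 D0 R
  rw [show P.M - V - P.Q = P.M - (V + P.Q) by ring, show P.M - V + P.Q = P.M - (V - P.Q) by ring,
    h1, h2, h3, h4, hth, show V + P.Q - P.N = V - P.N + P.Q by ring,
    show V - P.Q - P.N = V - P.N - P.Q by ring]
  ring

/-- `D_d (M - V) = D_{1-d} V` -/
lemma Dd_mirror (C : Chn) (hN : C.P.N = 3 * C.P.M + 1)
    (hth : ∀ V, C.th (C.P.M - V) = -C.th (V - C.P.N)) {d : ℤ} (hd : d = 0 ∨ d = 1) (V : ℤ) :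
    C.Dd d (C.P.M - V) = C.Dd (1 - d) V := by
  unfold Chn.Dd
  rcases hd with rfl | rfl
  · rw [if_neg (by norm_num), if_pos (by norm_num)]
    have := D_mirror C.P hN hth (C.P.M - V)
    rw [sub_sub_cancel] at this
    exact this.symm
  · rw [if_pos rfl, if_neg (by norm_num)]
    exact D_mirror C.P hN hth V

/-- the mirror of a block statement -/
lemma blk_mirror (M V N d : ℤ) (hN : N = 3 * M + 1) :
    M - H54RP.blk (V + N * d) = H54RP.blk (M - V + N * (1 - d)) := by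
  subst hN
  unfold H54RP.blk
  have e : M - V + (3 * M + 1) * (1 - d) + 1 = 4 * M + (2 - (V + (3 * M + 1) * d)) := by ring
  rw [e]
  omega

end Pool.Agent.H6.RP2
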