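import Pool.Agent.H62.RP2.Pos
import Pool.Agent.H6.RP2.Mirror

/-! Near `2`: more regions with `D1 ≥ 1`. -/

set_option autoImplicit false
set_option linter.unusedSimpArgs false
set_option maxHeartbeats 4000000

namespace Pool.Agent.H6.RP2

open Pool.Agent.H98.RP2 Par

lemma A3 (P : Par) (h : HA P) (V : ℤ) (l : -2 * P.M + P.g ≤ V)
    (u : V < -4 * P.g - 1 ∨ V < -4 * P.g - P.D - 1) : 1 ≤ P.D1 P.thA V := by
  obtain ⟨N, M, D, g⟩ := P
  obtain ⟨hN, hM, g0, gD, gN, D1, D2⟩ := h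
  simp only at *
  simp only [Par.D1, R, G, ZG, thA, iv, al, be, Q, st]
  repeat' (split <;> try (exfalso; omega))
  all_goals omega

lemma A4 (P : Par) (h : HA P) (V : ℤ) (l : -P.g ≤ V)
    (u : V < P.M + 2 + 4 * P.g) : 1 ≤ P.D1 P.thA V := by
  obtain ⟨N, M, D, g⟩ := P
  obtain ⟨hN, hM, g0, gD, gN, D1, D2⟩ := h
  simp only at *
  simp only [Par.D1, R, G, ZG, thA, iv, al, be, Q, st]
  repeat' (split <;> try (exfalso; omega))
  all_goals omega

lemma A6 (P : Par) (h : HA P) (V : ℤ) (l : 2 * P.N + P.D - P.g ≤ V)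
    (u : V < 3 * P.N - 4 * P.g - 1) : 1 ≤ P.D1 P.thA V := by
  obtain ⟨N, M, D, g⟩ := P
  obtain ⟨hN, hM, g0, gD, gN, D1, D2⟩ := h
  simp only at *
  simp only [Par.D1, R, G, ZG, thA, iv, al, be, Q, st]
  repeat' (split <;> try (exfalso; omega))
  all_goals omega

end Pool.Agent.H6.RP2
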