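import Pool.Agent.H98.RP2.AvA
import Pool.Agent.H98.RP2.ExA
import Pool.Agent.H6.RP2.Pos
import Pool.Agent.H6.RP2.HitAbs

/-! Near `2`: the hitting game, case A. -/

set_option autoImplicit false

namespace Pool.Agent.H6.RP2

open H54RP Pool.Agent.H98.RP2 Pool.Agent.H6.LvdP2

/-- the target blocks -/
def CB (M a0 a1 j : ℤ) : Prop := (a0 ≤ j ∧ j < a1) ∨ (a0 ≤ M - j ∧ M - j < a1)

/-- the middle blocks -/
def MB (M g j : ℤ) : Prop := -g ≤ j ∧ j ≤ M + g

/-- transfer by the mirror -/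
lemma mirror_fact (C : Chn) (hN : C.P.N = 3 * C.P.M + 1)
    (hth : ∀ V, C.th (C.P.M - V) = -C.th (V - C.P.N)) {S : ℤ → Prop}
    (hS : ∀ j, S (C.P.M - j) → S j) {j b : ℤ}
    (H : ∃ d : ℤ, (d = 0 ∨ d = 1) ∧ 1 ≤ C.Dd d (C.P.M - j + C.P.Q * -b) ∧
      S (blk (C.P.M - j + C.P.Q * -b + C.P.N * d))) :
    ∃ d : ℤ, (d = 0 ∨ d = 1) ∧ 1 ≤ C.Dd d (j + C.P.Q * b) ∧
      S (blk (j + C.P.Q * b + C.P.N * d)) := by
  obtain ⟨d, hd, hD, hT⟩ := H
  have e : C.P.M - j + C.P.Q * -b = C.P.M - (j + C.P.Q * b) := by ring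
  rw [e] at hD hT
  refine ⟨1 - d, by omega, ?_, ?_⟩
  · rwa [Dd_mirror C hN hth hd] at hD
  · apply hS
    rw [blk_mirror _ _ _ _ hN, sub_sub_cancel]
    exact hT

section

variable {P : Par} (h : HA P)
include h

lemma A_D1 {V : ℤ} : (chA P).Dd 1 V = P.D1 P.thA V := rfl
lemma A_D0 {V : ℤ} : (chA P).Dd 0 V = P.D0 P.thA V := rfl

lemma A_D0_mirror (V : ℤ) : P.D0 P.thA V = P.D1 P.thA (P.M - V) :=
  (D_mirror P h.hN (thA_mirror P h.hN) V).symm

lemma A_D1_mirror (V : ℤ) : P.D1 P.thA V = P.D0 P.thA (P.M - V) := by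
  have := D_mirror P h.hN (thA_mirror P h.hN) (P.M - V)
  rw [sub_sub_cancel] at this
  exact this

variable {a0 a1 : ℤ} (hg : P.g = 0 ∨ 3 * P.g ≤ -P.D + 2)
  (h0a : P.D ≤ 0 → 150 * a0 ≤ 150 * (P.M + 4 * P.g) + P.N)
  (h0b : 0 ≤ P.D → 150 * a0 ≤ 150 * (P.M + 4 * P.g + P.D) + P.N)
  (h1a : P.D ≤ 0 → 150 * (P.N - 4 * P.g) - P.N ≤ 150 * a1)
  (h1b : 0 ≤ P.D → 150 * (P.N - 4 * P.g - P.D) - P.N ≤ 150 * a1)

include hg h0a h0b h1a h1b

lemma A_mid_right (j : ℤ) (hj : P.M ≤ 2 * j) (hj2 : j ≤ P.M + P.g) (b : ℤ)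
    (hb : b = -1 ∨ b = 1) : ∃ d : ℤ, (d = 0 ∨ d = 1) ∧ 1 ≤ (chA P).Dd d (j + P.Q * b) ∧
      CB P.M a0 a1 (blk (j + P.Q * b + P.N * d)) := by
  have hh := h
  have hQ : P.Q = 2 * P.N + P.D := rfl
  obtain ⟨hN, hM, g0, gD, gN, D1, D2⟩ := h
  rcases hb with rfl | rfl
  · -- `b = -1`, `d = 0`
    refine ⟨0, by simp, ?_, ?_⟩
    · rw [A_D0 hh, A_D0_mirror hh, show P.M - (j + P.Q * -1) = (P.M - j) + P.Q by ring]
      exact A_11 hh _ (by omega) (by omega) (Or.inr (Or.inl ⟨by omega, by omega⟩))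
    · rw [hQ]
      unfold CB blk
      omega
  · by_cases hc : a0 ≤ (j + P.Q + 1) / 4
    · refine ⟨0, by simp, ?_, ?_⟩
      · rw [A_D0 hh, mul_one]
        exact A_10 hh _ (by omega) (by omega) (Or.inr (Or.inl ⟨by omega, by omega⟩))
      · rw [hQ] at hc ⊢
        unfold CB blk
        omega
    · refine ⟨1, by simp, ?_, ?_⟩
      · rw [A_D1 hh, mul_one]
        exact A_11 hh _ (by omega) (by omega) (Or.inr (Or.inl ⟨by omega, by omega⟩))
      · rw [hQ] at hc ⊢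
        unfold CB blk
        omega

lemma A_T1_right (j : ℤ) (hj : a1 ≤ j) (hj2 : j < P.N - P.g) (b : ℤ)
    (hb : b = -1 ∨ b = 0 ∨ b = 1) : ∃ d : ℤ, (d = 0 ∨ d = 1) ∧ 1 ≤ (chA P).Dd d (j + P.Q * b) ∧
      (CB P.M a0 a1 (blk (j + P.Q * b + P.N * d)) ∨ MB P.M P.g (blk (j + P.Q * b + P.N * d))) := by
  have hh := h
  have hQ : P.Q = 2 * P.N + P.D := rfl
  obtain ⟨hN, hM, g0, gD, gN, D1, D2⟩ := h
  refine ⟨0, by simp, ?_, ?_⟩
  · rcases hb with rfl | rfl | rfl
    · rw [A_D0 hh, A_D0_mirror hh, show P.M - (j + P.Q * -1) = (P.M - j) + P.Q by ring]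
      exact A_11 hh _ (by omega) (by omega) (Or.inl (by omega))
    · rw [A_D0 hh, A_D0_mirror hh, mul_zero, add_zero]
      exact A3 P hh _ (by omega) (by omega)
    · rw [A_D0 hh, mul_one]
      exact A_10 hh _ (by omega) (by omega) (Or.inr (Or.inr (by omega)))
  · rw [hQ]
    unfold CB MB blk
    rcases hb with rfl | rfl | rfl <;> omega

lemma A_T2_right (j : ℤ) (hj : P.N - 2 * P.g - 4 ≤ 2 * j) (hj2 : j < a0) (b : ℤ)
    (hb : b = -1 ∨ b = 0 ∨ b = 1) : ∃ d : ℤ, (d = 0 ∨ d = 1) ∧ 1 ≤ (chA P).Dd d (j + P.Q * b) ∧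
      (CB P.M a0 a1 (blk (j + P.Q * b + P.N * d)) ∨ MB P.M P.g (blk (j + P.Q * b + P.N * d)) ∨
        CB P.M a1 (P.N - P.g) (blk (j + P.Q * b + P.N * d))) := by
  have hh := h
  have hQ : P.Q = 2 * P.N + P.D := rfl
  obtain ⟨hN, hM, g0, gD, gN, D1, D2⟩ := h
  rcases hb with rfl | rfl | rfl
  · refine ⟨0, by simp, ?_, ?_⟩
    · rw [A_D0 hh, A_D0_mirror hh, show P.M - (j + P.Q * -1) = (P.M - j) + P.Q by ring]
      exact A_11 hh _ (by omega) (by omega) (Or.inl (by omega))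
    · left
      rw [hQ]
      unfold CB blk
      omega
  · refine ⟨0, by simp, ?_, ?_⟩
    · rw [A_D0 hh, A_D0_mirror hh, mul_zero, add_zero]
      exact A3 P hh _ (by omega) (by omega)
    · right; left
      rw [hQ]
      unfold MB blk
      omega
  · refine ⟨1, by simp, ?_, ?_⟩
    · rw [A_D1 hh, mul_one]
      exact A_11 hh _ (by omega) (by omega) (Or.inr (Or.inr ⟨by omega, by omega⟩))
    · by_cases hc : blk (j + P.Q * 1 + P.N * 1) < a1
      · left
        rw [hQ] at hc ⊢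
        unfold blk at hc
        unfold CB blk
        omega
      · right; right
        rw [hQ] at hc ⊢
        unfold blk at hc
        unfold CB blk
        omega

lemma A_rest_right (j : ℤ) (hj : P.M + P.g < j) (hj1 : 2 * j < P.N - 2 * P.g - 4) (hj2 : j < a0)
    (b : ℤ) (hb : b = -1 ∨ b = 0 ∨ b = 1) :
    ∃ d : ℤ, (d = 0 ∨ d = 1) ∧ 1 ≤ (chA P).Dd d (j + P.Q * b) ∧
      (CB P.M a0 a1 (blk (j + P.Q * b + P.N * d)) ∨ MB P.M P.g (blk (j + P.Q * b + P.N * d)) ∨
        CB P.M a1 (P.N - P.g) (blk (j + P.Q * b + P.N * d)) ∨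
        ((P.N - 2 * P.g - 4 ≤ 2 * blk (j + P.Q * b + P.N * d) ∧ blk (j + P.Q * b + P.N * d) < a0) ∨
        (P.N - 2 * P.g - 4 ≤ 2 * (P.M - blk (j + P.Q * b + P.N * d)) ∧
          P.M - blk (j + P.Q * b + P.N * d) < a0))) := by
  have hh := h
  have hQ : P.Q = 2 * P.N + P.D := rfl
  obtain ⟨hN, hM, g0, gD, gN, D1, D2⟩ := h
  rcases hb with rfl | rfl | rfl
  · by_cases hc : P.M + 4 * P.g + P.D + 2 ≤ j
    · refine ⟨0, by simp, ?_, ?_⟩
      · rw [A_D0 hh, A_D0_mirror hh, show P.M - (j + P.Q * -1) = (P.M - j) + P.Q by ring]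
        exact A_11 hh _ (by omega) (by omega) (Or.inl (by omega))
      · left
        rw [hQ]
        unfold CB blk
        omega
    · refine ⟨1, by simp, ?_, ?_⟩
      · rw [A_D1 hh, A_D1_mirror hh, show P.M - (j + P.Q * -1) = (P.M - j) + P.Q by ring]
        exact A_10 hh _ (by omega) (by omega) (Or.inl ⟨by omega, by omega⟩)
      · by_cases hc2 : P.M - blk (j + P.Q * -1 + P.N * 1) < a0
        · right; right; right; right
          rw [hQ] at hc2 ⊢
          unfold blk at hc2 ⊢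
          omega
        · left
          rw [hQ] at hc2 ⊢
          unfold blk at hc2
          unfold CB blk
          omega
  · by_cases hc : j < P.M + 2 + 4 * P.g
    · refine ⟨1, by simp, ?_, ?_⟩
      · rw [A_D1 hh, mul_zero, add_zero]
        exact A4 P hh _ (by omega) (by omega)
      · right; left
        unfold MB blk
        omega
    · refine ⟨0, by simp, ?_, ?_⟩
      · rw [A_D0 hh, A_D0_mirror hh, mul_zero, add_zero]
        exact A3 P hh _ (by omega) (by omega)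
      · right; left
        unfold MB blk
        omega
  · refine ⟨1, by simp, ?_, ?_⟩
    · rw [A_D1 hh, mul_one]
      exact A_11 hh _ (by omega) (by omega) (Or.inr (Or.inr ⟨by omega, by omega⟩))
    · by_cases hc : blk (j + P.Q * 1 + P.N * 1) < a1
      · left
        rw [hQ] at hc ⊢
        unfold blk at hc
        unfold CB blk
        omega
      · right; right; left
        rw [hQ] at hc ⊢
        unfold blk at hc
        unfold CB blk
        omega

end

lemma A_np {P : Par} (h : HA P) (j : ℤ) (h0 : 0 ≤ j) (h1 : j ≤ P.M) :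
    P.npA j = 0 ∧ P.nmA j = 0 := by
  obtain ⟨N, M, D, g⟩ := P
  obtain ⟨hN, hM, g0, gD, gN, D1, D2⟩ := h
  simp only at *
  simp only [Par.npA, Par.nmA, iv, Par.al, Par.be, st]
  constructor
  all_goals
    repeat' (split <;> try (exfalso; omega))
  all_goals omega

section

variable {ι : Type*} [Fintype ι] {c : ι → ℤ}

lemma eta_congr {F F' : Flow c} (hF : ∀ X v, F.W X v = F'.W X v) (C : ℤ → Prop) (m : ℕ) (X : ℤ) :
    eta F C m X = eta F' C m X := by
  classical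
  have hw : ∀ X, F.w X = F'.w X := fun X => by
    unfold Flow.w
    exact Finset.sum_congr rfl fun v _ => hF X v
  induction m generalizing X with
  | zero => unfold eta; rfl
  | succ m ih =>
    by_cases hC : C X
    · rw [eta_of_mem F hC, eta_of_mem F' hC]
    · have e1 : eta F C (m + 1) X = ∑ v, F.K X v * eta F C m (T c v X) := by
        conv_lhs => unfold eta
        rw [if_neg hC]
      have e2 : eta F' C (m + 1) X = ∑ v, F'.K X v * eta F' C m (T c v X) := by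
        conv_lhs => unfold eta
        rw [if_neg hC]
      rw [e1, e2]
      refine Finset.sum_congr rfl fun v _ => ?_
      rw [ih]
      unfold Flow.K
      rw [hF, hw]

lemma eta_mono_set (F : Flow c) {C C' : ℤ → Prop} (hC : ∀ X, C X → C' X) (m : ℕ) (X : ℤ) :
    eta F C m X ≤ eta F C' m X := by
  classical
  induction m generalizing X with
  | zero =>
    by_cases h : C X
    · rw [eta_of_mem F h, eta_of_mem F (hC X h)]
    · have : eta F C 0 X = 0 := by
        unfold eta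
        rw [if_neg h]
      rw [this]
      exact eta_nonneg F C' _ X
  | succ m ih =>
    by_cases h' : C' X
    · rw [eta_of_mem F h']
      exact eta_le_one F C _ X
    · have h : ¬ C X := fun h => h' (hC X h)
      have e1 : eta F C (m + 1) X = ∑ v, F.K X v * eta F C m (T c v X) := by
        conv_lhs => unfold eta
        rw [if_neg h]
      have e2 : eta F C' (m + 1) X = ∑ v, F.K X v * eta F C' m (T c v X) := by
        conv_lhs => unfold eta
        rw [if_neg h']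
      rw [e1, e2]
      exact Finset.sum_le_sum fun v _ => mul_le_mul_of_nonneg_left (ih _) (F.K_nonneg X v)

end

/-- HIT, case A (`g` = the smallest label). -/
theorem hit_A {P : Par} (h : HA P) (hg : P.g = 0 ∨ 3 * P.g ≤ -P.D + 2) (σ : Bool) {s : ℕ}
    (hs : P.N = 4 ^ s) {a0 a1 : ℤ}
    (h0a : P.D ≤ 0 → 150 * a0 ≤ 150 * (P.M + 4 * P.g) + P.N)
    (h0b : 0 ≤ P.D → 150 * a0 ≤ 150 * (P.M + 4 * P.g + P.D) + P.N)
    (h1a : P.D ≤ 0 → 150 * (P.N - 4 * P.g) - P.N ≤ 150 * a1)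
    (h1b : 0 ≤ P.D → 150 * (P.N - 4 * P.g - P.D) - P.N ≤ 150 * a1)
    (F : Flow (cL P.Q P.N)) (hF : ∀ X v, F.W X v = (chA P).W σ X v) {X : ℤ}
    (hX : -2 * P.M + P.g ≤ blk X ∧ blk X < P.N - P.g) (hXD : ¬ DigB (s + 1) X) :
    1 / 4096 ≤ eta F (fun Y => CB P.M a0 a1 (blk Y)) (s + 4) X := by
  have hN := h.hN
  have hM := h.hM
  have hg0 := h.g0
  have hgN := h.gN
  have hw : Chn.Wok P := ⟨hg0, by omega, hN⟩
  have hth : ∀ V, (chA P).th ((chA P).P.M - V) = -(chA P).th (V - (chA P).P.N) :=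
    thA_mirror P hN
  have hfl : eta F (fun Y => CB P.M a0 a1 (blk Y)) (s + 4) X =
      eta (Chn.flow (chA P) (exA h) hw σ) (fun Y => CB P.M a0 a1 (blk Y)) (s + 4) X :=
    eta_congr (F' := Chn.flow (chA P) (exA h) hw σ) hF _ _ X
  rw [hfl]
  have sCB : ∀ u v j, CB P.M u v (P.M - j) → CB P.M u v j := by
    intro u v j hj
    unfold CB at *
    omega
  have sMB : ∀ j, MB P.M P.g (P.M - j) → MB P.M P.g j := by
    intro j hj
    unfold MB at *
    omega
  refine hit_abs (C := chA P) (exA h) hw σ hs (CB P.M a0 a1) (MB P.M P.g)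
    (CB P.M a1 (P.N - P.g))
    (fun j => (P.N - 2 * P.g - 4 ≤ 2 * j ∧ j < a0) ∨
      (P.N - 2 * P.g - 4 ≤ 2 * (P.M - j) ∧ P.M - j < a0))
    (fun j => (P.M + P.g < j ∧ 2 * j < P.N - 2 * P.g - 4 ∧ j < a0) ∨
      (P.M + P.g < P.M - j ∧ 2 * (P.M - j) < P.N - 2 * P.g - 4 ∧ P.M - j < a0))
    (A_np h) ?_ ?_ ?_ ?_ ?_ ?_ (Chn.mem_sup.2 hX) hXD
  · -- events from the middle
    intro j hj b hb
    unfold MB at hj
    by_cases hr : P.M ≤ 2 * j
    · exact A_mid_right h hg h0a h0b h1a h1b j hr (by omega) b hb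
    · exact mirror_fact (chA P) hN hth (sCB a0 a1)
        (A_mid_right h hg h0a h0b h1a h1b (P.M - j) (by omega) (by omega) (-b) (by omega))
  · intro j hj d hd
    change MB P.M P.g (blk (j + P.N * d))
    unfold MB blk at *
    rcases hd with rfl | rfl <;> omega
  · intro j hj b hb
    rcases hj with hj | hj
    · exact A_T1_right h hg h0a h0b h1a h1b j hj.1 hj.2 b hb
    · exact mirror_fact (chA P) hN hth (S := fun j => CB P.M a0 a1 j ∨ MB P.M P.g j)
        (fun j hj => hj.imp (sCB _ _ j) (sMB j))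
        (A_T1_right h hg h0a h0b h1a h1b (P.M - j) hj.1 hj.2 (-b) (by omega))
  · intro j hj b hb
    rcases hj with hj | hj
    · exact A_T2_right h hg h0a h0b h1a h1b j hj.1 hj.2 b hb
    · exact mirror_fact (chA P) hN hth
        (S := fun j => CB P.M a0 a1 j ∨ MB P.M P.g j ∨ CB P.M a1 (P.N - P.g) j)
        (fun j hj => hj.imp (sCB _ _ j) (fun hj => hj.imp (sMB j) (sCB _ _ j)))
        (A_T2_right h hg h0a h0b h1a h1b (P.M - j) hj.1 hj.2 (-b) (by omega))
  · intro j hj b hb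
    rcases hj with hj | hj
    · exact A_rest_right h hg h0a h0b h1a h1b j hj.1 hj.2.1 hj.2.2 b hb
    · exact mirror_fact (chA P) hN hth
        (S := fun j => CB P.M a0 a1 j ∨ MB P.M P.g j ∨ CB P.M a1 (P.N - P.g) j ∨
          ((P.N - 2 * P.g - 4 ≤ 2 * j ∧ j < a0) ∨
          (P.N - 2 * P.g - 4 ≤ 2 * (P.M - j) ∧ P.M - j < a0)))
        (fun j hj => hj.imp (sCB _ _ j) (fun hj => hj.imp (sMB j) (fun hj =>
          hj.imp (sCB _ _ j) (fun hj => by
            have e : (chA P).P.M = P.M := rfl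
            rw [e, sub_sub_cancel] at hj
            exact hj.symm))))
        (A_rest_right h hg h0a h0b h1a h1b (P.M - j) hj.1 hj.2.1 hj.2.2 (-b) (by omega))
  · intro j h1 h2
    change -2 * P.M + P.g ≤ j at h1
    change j < P.N - P.g at h2
    unfold CB MB
    omega

end Pool.Agent.H6.RP2
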