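import Pool.Agent.H98.RP2.AvB
import Pool.Agent.H98.RP2.ExB
import Pool.Agent.H98.RP2.Fam
import Pool.Agent.H6.RP2.HitA

/-! Near `2`: the hitting game, case B. -/

set_option autoImplicit false
set_option maxHeartbeats 4000000

namespace Pool.Agent.H6.RP2

open H54RP Pool.Agent.H98.RP2 Pool.Agent.H6.LvdP2

/-- `D1` on `[-g, N - 4g - 1)` -/
lemma B4 (P : Par) (h : HB P) (V : ℤ) (l : -P.g ≤ V)
    (u : V < P.N - 4 * P.g - 1) : 1 ≤ P.D1 P.thB V := by
  obtain ⟨N, M, D, g⟩ := P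
  obtain ⟨hN, hM, g0, gD, D1, D2⟩ := h
  simp only at *
  simp only [Par.D1, Par.R, Par.G, Par.ZG, Par.thB, iv, Par.ua, Par.ub, Par.Q, st]
  repeat' (split <;> try (exfalso; omega))
  all_goals omega

lemma B_np {P : Par} (h : HB P) (hl : 4 * P.g + P.M + 2 ≤ P.N + P.D) (j : ℤ) (h0 : 0 ≤ j)
    (h1 : j ≤ P.M) : P.npB j = 0 ∧ P.nmB j = 0 := by
  obtain ⟨N, M, D, g⟩ := P
  obtain ⟨hN, hM, g0, gD, D1, D2⟩ := h
  simp only at *
  simp only [Par.npB, Par.nmB, iv, Par.ua, Par.ub, st]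
  constructor
  all_goals
    repeat' (split <;> try (exfalso; omega))
  all_goals omega

section

variable {P : Par} (h : HB P)
include h

lemma B_D1 {V : ℤ} : (chB P).Dd 1 V = P.D1 P.thB V := rfl
lemma B_D0 {V : ℤ} : (chB P).Dd 0 V = P.D0 P.thB V := rfl

lemma B_D0_mirror (V : ℤ) : P.D0 P.thB V = P.D1 P.thB (P.M - V) :=
  (D_mirror P h.hN (thB_mirror P h.hN) V).symm

lemma B_D1_mirror (V : ℤ) : P.D1 P.thB V = P.D0 P.thB (P.M - V) := by
  have := D_mirror P h.hN (thB_mirror P h.hN) (P.M - V)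
  rw [sub_sub_cancel] at this
  exact this

variable {a0 a1 : ℤ} (hg : 1000 * P.g ≤ 104 * P.N + 1000) (hbig : 100000 ≤ P.M)
  (h0 : 1000 * a0 ≤ 468 * P.N) (h1 : 7229 * P.N ≤ 10000 * a1)

include hg h0 h1 hbig

lemma B_mid_right (j : ℤ) (hj : P.M ≤ 2 * j) (hj2 : j ≤ P.M + P.g) (b : ℤ)
    (hb : b = -1 ∨ b = 1) : ∃ d : ℤ, (d = 0 ∨ d = 1) ∧ 1 ≤ (chB P).Dd d (j + P.Q * b) ∧
      CB P.M a0 a1 (blk (j + P.Q * b + P.N * d)) := by
  have hh := h
  have hQ : P.Q = 2 * P.N + P.D := rfl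
  obtain ⟨hN, hM, g1, g2, D1, D2⟩ := h
  rcases hb with rfl | rfl
  · by_cases hc : P.M - blk (j + P.Q * -1) < a1
    · refine ⟨0, by simp, ?_, ?_⟩
      · rw [B_D0 hh, B_D0_mirror hh, show P.M - (j + P.Q * -1) = (P.M - j) + P.Q by ring]
        exact B_11 hh _ (by omega) (by omega) (Or.inr (Or.inl ⟨by omega, by omega⟩))
      · rw [hQ] at hc ⊢
        unfold blk at hc
        unfold CB blk
        omega
    · refine ⟨1, by simp, ?_, ?_⟩
      · rw [B_D1 hh, B_D1_mirror hh, show P.M - (j + P.Q * -1) = (P.M - j) + P.Q by ring]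
        exact B_10 hh _ (by omega) (by omega) (Or.inr (Or.inl ⟨by omega, by omega⟩))
      · rw [hQ] at hc ⊢
        unfold blk at hc
        unfold CB blk
        omega
  · refine ⟨0, by simp, ?_, ?_⟩
    · rw [B_D0 hh, mul_one]
      exact B_10 hh _ (by omega) (by omega) (Or.inr (Or.inl ⟨by omega, by omega⟩))
    · rw [hQ]
      unfold CB blk
      omega

lemma B_T1_right (j : ℤ) (hj : a1 ≤ j) (hj2 : j < P.N - P.g) (b : ℤ)
    (hb : b = -1 ∨ b = 0 ∨ b = 1) : ∃ d : ℤ, (d = 0 ∨ d = 1) ∧ 1 ≤ (chB P).Dd d (j + P.Q * b) ∧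
      (CB P.M a0 a1 (blk (j + P.Q * b + P.N * d)) ∨ MB P.M P.g (blk (j + P.Q * b + P.N * d))) := by
  have hh := h
  have hQ : P.Q = 2 * P.N + P.D := rfl
  obtain ⟨hN, hM, g1, g2, D1, D2⟩ := h
  refine ⟨0, by simp, ?_, ?_⟩
  · rcases hb with rfl | rfl | rfl
    · rw [B_D0 hh, B_D0_mirror hh, show P.M - (j + P.Q * -1) = (P.M - j) + P.Q by ring]
      exact B_11 hh _ (by omega) (by omega) (Or.inl (by omega))
    · rw [B_D0 hh, mul_zero, add_zero]
      exact B_00 hh _ (Or.inr ⟨by omega, by omega⟩)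
    · rw [B_D0 hh, mul_one]
      exact B_10 hh _ (by omega) (by omega) (Or.inr (Or.inr (by omega)))
  · rw [hQ]
    unfold CB MB blk
    rcases hb with rfl | rfl | rfl <;> omega

lemma B_T2_right (j : ℤ) (hj : P.M + P.g < j) (hj2 : j < a0) (b : ℤ)
    (hb : b = -1 ∨ b = 0 ∨ b = 1) : ∃ d : ℤ, (d = 0 ∨ d = 1) ∧ 1 ≤ (chB P).Dd d (j + P.Q * b) ∧
      (CB P.M a0 a1 (blk (j + P.Q * b + P.N * d)) ∨ MB P.M P.g (blk (j + P.Q * b + P.N * d)) ∨
        CB P.M a1 (P.N - P.g) (blk (j + P.Q * b + P.N * d))) := by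
  have hh := h
  have hQ : P.Q = 2 * P.N + P.D := rfl
  obtain ⟨hN, hM, g1, g2, D1, D2⟩ := h
  refine ⟨1, by simp, ?_, ?_⟩
  · rcases hb with rfl | rfl | rfl
    · rw [B_D1 hh, B_D1_mirror hh, show P.M - (j + P.Q * -1) = (P.M - j) + P.Q by ring]
      exact B_10 hh _ (by omega) (by omega) (Or.inl ⟨by omega, by omega⟩)
    · rw [B_D1 hh, mul_zero, add_zero]
      exact B4 P hh _ (by omega) (by omega)
    · rw [B_D1 hh, mul_one]
      exact B_11 hh _ (by omega) (by omega) (Or.inr (Or.inr ⟨by omega, by omega⟩))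
  · rcases hb with rfl | rfl | rfl
    · right; left
      rw [hQ]
      unfold MB blk
      omega
    · right; left
      rw [hQ]
      unfold MB blk
      omega
    · by_cases hc : blk (j + P.Q * 1 + P.N * 1) < a1
      · left
        rw [hQ] at hc ⊢
        unfold blk at hc
        unfold CB blk
        omega
      · right; right
        rw [hQ] at hc ⊢
        unfold blk at hc
        unfold CB blk
        omega

end

/-- HIT, case B (`g` = the smallest label). -/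
theorem hit_B {P : Par} (h : HB P) (hg : 1000 * P.g ≤ 104 * P.N + 1000) (hbig : 100000 ≤ P.M)
    (σ : Bool) {s : ℕ} (hs : P.N = 4 ^ s) {a0 a1 : ℤ}
    (h0 : 1000 * a0 ≤ 468 * P.N) (h1 : 7229 * P.N ≤ 10000 * a1)
    (F : Flow (cL P.Q P.N)) (hF : ∀ X v, F.W X v = (chB P).W σ X v) {X : ℤ}
    (hX : -2 * P.M + P.g ≤ blk X ∧ blk X < P.N - P.g) (hXD : ¬ DigB (s + 1) X) :
    1 / 4096 ≤ eta F (fun Y => CB P.M a0 a1 (blk Y)) (s + 4) X := by
  have hN := h.hN
  have hg1 := h.g1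
  have hg2 := h.g2
  have hD2 := h.D2
  have hl : 4 * P.g + P.M + 2 ≤ P.N + P.D := by omega
  have hw : Chn.Wok P := ⟨by omega, by omega, hN⟩
  have hth : ∀ V, (chB P).th ((chB P).P.M - V) = -(chB P).th (V - (chB P).P.N) :=
    thB_mirror P hN
  have hfl : eta F (fun Y => CB P.M a0 a1 (blk Y)) (s + 4) X =
      eta (Chn.flow (chB P) (exB h) hw σ) (fun Y => CB P.M a0 a1 (blk Y)) (s + 4) X :=
    eta_congr (F' := Chn.flow (chB P) (exB h) hw σ) hF _ _ X
  rw [hfl]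
  have sCB : ∀ u v j, CB P.M u v (P.M - j) → CB P.M u v j := by
    intro u v j hj
    unfold CB at *
    omega
  have sMB : ∀ j, MB P.M P.g (P.M - j) → MB P.M P.g j := by
    intro j hj
    unfold MB at *
    omega
  refine hit_abs (C := chB P) (exB h) hw σ hs (CB P.M a0 a1) (MB P.M P.g)
    (CB P.M a1 (P.N - P.g))
    (fun j => (P.M + P.g < j ∧ j < a0) ∨ (P.M + P.g < P.M - j ∧ P.M - j < a0))
    (fun _ => False)
    (B_np h hl) ?_ ?_ ?_ ?_ ?_ ?_ (Chn.mem_sup.2 hX) hXD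
  · intro j hj b hb
    unfold MB at hj
    by_cases hr : P.M ≤ 2 * j
    · exact B_mid_right h hg hbig h0 h1 j hr (by omega) b hb
    · exact mirror_fact (chB P) hN hth (sCB a0 a1)
        (B_mid_right h hg hbig h0 h1 (P.M - j) (by omega) (by omega) (-b) (by omega))
  · intro j hj d hd
    change MB P.M P.g (blk (j + P.N * d))
    unfold MB blk at *
    rcases hd with rfl | rfl <;> omega
  · intro j hj b hb
    rcases hj with hj | hj
    · exact B_T1_right h hg hbig h0 h1 j hj.1 hj.2 b hb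
    · exact mirror_fact (chB P) hN hth (S := fun j => CB P.M a0 a1 j ∨ MB P.M P.g j)
        (fun j hj => hj.imp (sCB _ _ j) (sMB j))
        (B_T1_right h hg hbig h0 h1 (P.M - j) hj.1 hj.2 (-b) (by omega))
  · intro j hj b hb
    rcases hj with hj | hj
    · exact B_T2_right h hg hbig h0 h1 j hj.1 hj.2 b hb
    · exact mirror_fact (chB P) hN hth
        (S := fun j => CB P.M a0 a1 j ∨ MB P.M P.g j ∨ CB P.M a1 (P.N - P.g) j)
        (fun j hj => hj.imp (sCB _ _ j) (fun hj => hj.imp (sMB j) (sCB _ _ j)))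
        (B_T2_right h hg hbig h0 h1 (P.M - j) hj.1 hj.2 (-b) (by omega))
  · intro j hj
    exact hj.elim
  · intro j h1' h2
    change -2 * P.M + P.g ≤ j at h1'
    change j < P.N - P.g at h2
    unfold CB MB
    omega

/-- HIT for the family of case A. -/
theorem hit_FA {N M D g0 g1 c0 c1 e : ℤ} (h : PA N M D g0 g1 c0 c1) (σ : Bool) {s : ℕ}
    (hs : N = 4 ^ s) (he : 1000 * e ≤ N + 1000) {X : ℤ} (hX : X ∈ (FA N M D σ g0).supp)
    (hXD : ¬ DigB (s + 1) X) :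
    1 / 4096 ≤ eta (FA N M D σ g0)
      (fun Y => (c0 + e ≤ blk Y ∧ blk Y < c1 - e) ∨
        (c0 + e ≤ M - blk Y ∧ M - blk Y < c1 - e)) (s + 4) X := by
  have hA : HA ⟨N, M, D, g0⟩ := h.toA ⟨le_rfl, h.g01⟩
  rw [FA_mem] at hX
  obtain ⟨hN, hM, D1, D2, h0, gD, gu, g1, g1', b1, b2, b3, b4⟩ := h
  exact hit_A (P := ⟨N, M, D, g0⟩) hA gu σ hs (a0 := c0 + e) (a1 := c1 - e)
    (by simp only; omega) (by simp only; omega) (by simp only; omega) (by simp only; omega)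
    (FA N M D σ g0) (fun X v => FA_W hA X v) hX hXD

/-- HIT for the family of case B. -/
theorem hit_FB {N M D g0 g1 ga c0 c1 e : ℤ} (h : PB N M D g0 g1 ga c0 c1) (σ : Bool) {s : ℕ}
    (hs : N = 4 ^ s) (he : 1000 * e ≤ N) {X : ℤ} (hX : X ∈ (FB N M D σ g0).supp)
    (hXD : ¬ DigB (s + 1) X) :
    1 / 4096 ≤ eta (FB N M D σ g0)
      (fun Y => (c0 + e ≤ blk Y ∧ blk Y < c1 - e) ∨
        (c0 + e ≤ M - blk Y ∧ M - blk Y < c1 - e)) (s + 4) X := by
  have hB : HB ⟨N, M, D, g0⟩ := h.toB ⟨le_rfl, h.g01⟩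
  rw [FB_mem] at hX
  obtain ⟨hN, hM, D1, D2, h0, h0', g1, g1', ga, ga', b1, b2, b3⟩ := h
  exact hit_B (P := ⟨N, M, D, g0⟩) hB (by simp only; omega) hM σ hs (a0 := c0 + e) (a1 := c1 - e)
    (by simp only; omega) (by simp only; omega)
    (FB N M D σ g0) (fun X v => FB_W hB X v) hX hXD

end Pool.Agent.H6.RP2
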