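import Mathlib

/-! Near `2`: the base case (variation at distance `1`) from the letters `(1,0)` on `C_R = [c0, c1)`,
`(1,1)` and merges on the mirror `C_L`, and one letter `(-1,0)` (or `(1,1)` if `D = 0`) at the fixed
crossing `j0`, `3 j0 + 2 = Q`. -/

set_option autoImplicit false
set_option linter.unusedSimpArgs false

namespace Pool.Agent.H6.RP2

open Finset

/-- variation inside the block `j` -/
noncomputable def bv (f : ℤ → ℝ) (j : ℤ) : ℝ :=
  |f (4 * j) - f (4 * j - 1)| + |f (4 * j + 1) - f (4 * j)| + |f (4 * j + 2) - f (4 * j + 1)|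

lemma bv_nonneg (f : ℤ → ℝ) (j : ℤ) : 0 ≤ bv f j := by
  unfold bv
  positivity

/-- a unit step inside a block -/
lemma step_le_bv (f : ℤ → ℝ) {Y j : ℤ} (h : (Y + 1) / 4 = j) (h2 : Y % 4 ≠ 2) :
    |f (Y + 1) - f Y| ≤ bv f j := by
  have h3 : Y = 4 * j - 1 ∨ Y = 4 * j ∨ Y = 4 * j + 1 := by omega
  have p1 := abs_nonneg (f (4 * j) - f (4 * j - 1))
  have p2 := abs_nonneg (f (4 * j + 1) - f (4 * j))
  have p3 := abs_nonneg (f (4 * j + 2) - f (4 * j + 1))
  unfold bv
  rcases h3 with rfl | rfl | rfl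
  · rw [show (4 : ℤ) * j - 1 + 1 = 4 * j by ring]
    linarith
  · linarith
  · rw [show (4 : ℤ) * j + 1 + 1 = 4 * j + 2 by ring]
    linarith

/-- crossing `j` in terms of the crossing of the images under one letter -/
lemma cross_le (f : ℤ → ℝ) (j c : ℤ) :
    |f (4 * j + 3) - f (4 * j + 2)| ≤ bv f j + |f (j + c) - f (4 * j)| +
      |f (j + c + 1) - f (j + c)| + |f (j + 1 + c) - f (4 * (j + 1))| + bv f (j + 1) := by
  have e1 : |f (4 * j + 2) - f (4 * j)| ≤ bv f j := by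
    unfold bv
    have p1 := abs_nonneg (f (4 * j) - f (4 * j - 1))
    have p2 := abs_add_le (f (4 * j + 2) - f (4 * j + 1)) (f (4 * j + 1) - f (4 * j))
    rw [show f (4 * j + 2) - f (4 * j + 1) + (f (4 * j + 1) - f (4 * j)) =
      f (4 * j + 2) - f (4 * j) by ring] at p2
    linarith
  have e2 : |f (4 * (j + 1)) - f (4 * j + 3)| ≤ bv f (j + 1) := by
    unfold bv
    rw [show (4 : ℤ) * (j + 1) - 1 = 4 * j + 3 by ring]
    have p2 := abs_nonneg (f (4 * (j + 1) + 1) - f (4 * (j + 1)))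
    have p3 := abs_nonneg (f (4 * (j + 1) + 2) - f (4 * (j + 1) + 1))
    linarith
  have e3 : j + 1 + c = j + c + 1 := by ring
  rw [e3]
  have h1 := abs_le.1 e1
  have h2 := abs_le.1 e2
  have h3 := abs_le.1 (le_refl |f (j + c) - f (4 * j)|)
  have h4 := abs_le.1 (le_refl |f (j + c + 1) - f (j + c)|)
  have h5 := abs_le.1 (le_refl |f (j + c + 1) - f (4 * (j + 1))|)
  rw [abs_le]
  constructor
  · linarith [h1.1, h1.2, h2.1, h2.2, h3.1, h3.2, h4.1, h4.2, h5.1, h5.2]
  · linarith [h1.1, h1.2, h2.1, h2.2, h3.1, h3.2, h4.1, h4.2, h5.1, h5.2]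

section

variable {f : ℤ → ℝ} {B : ℝ} {Q c0 c1 : ℤ}

/-- a single crossing in `C_R` different from the fixed one -/
lemma single_cross (h1 : ∑ j ∈ Ico c0 c1, bv f j ≤ B)
    (h2 : ∑ j ∈ Ico c0 c1, |f (j + Q) - f (4 * j)| ≤ B)
    (h4 : ∀ j, c0 ≤ j → j < c1 → c0 ≤ (j + Q + 1) / 4 ∧ (j + Q + 2) / 4 < c1) (n : ℕ) :
    ∀ j, c0 ≤ j → j + 1 < c1 → 3 * j + 2 - Q ≠ 0 → |3 * j + 2 - Q| < 4 ^ n →
      |f (4 * j + 3) - f (4 * j + 2)| ≤ (4 * n + 1) * B := by
  have hs1 : ∀ j, c0 ≤ j → j < c1 → bv f j ≤ B := fun j ha hb =>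
    (single_le_sum (f := fun j => bv f j) (fun i _ => bv_nonneg f i)
      (mem_Ico.2 ⟨ha, hb⟩)).trans h1
  have hs2 : ∀ j, c0 ≤ j → j < c1 → |f (j + Q) - f (4 * j)| ≤ B := fun j ha hb =>
    (single_le_sum (f := fun j => |f (j + Q) - f (4 * j)|) (fun i _ => abs_nonneg _)
      (mem_Ico.2 ⟨ha, hb⟩)).trans h2
  induction n with
  | zero =>
    intro j _ _ hne hlt
    exfalso
    rw [pow_zero] at hlt
    exact hne (Int.abs_lt_one_iff.1 hlt)
  | succ n ih =>
    intro j ha hb hne hlt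
    have hB : 0 ≤ B := (bv_nonneg f j).trans (hs1 j ha (by omega))
    have hc := cross_le f j Q
    have e1 := hs1 j ha (by omega)
    have e2 := hs1 (j + 1) (by omega) hb
    have e3 := hs2 j ha (by omega)
    have e4 := hs2 (j + 1) (by omega) hb
    obtain ⟨g1, g2⟩ := h4 j ha (by omega)
    obtain ⟨g3, g4⟩ := h4 (j + 1) (by omega) hb
    have hn0 : (0 : ℝ) ≤ n := Nat.cast_nonneg n
    by_cases hr : (j + Q) % 4 = 2
    · set j' := (j + Q - 2) / 4 with hj'
      have hY : j + Q = 4 * j' + 2 := by omega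
      have h5 : 4 * (3 * j' + 2 - Q) = 3 * j + 2 - Q := by omega
      have h6 := ih j' (by omega) (by omega) (by omega) (by
        have h7 : 4 * |3 * j' + 2 - Q| = |3 * j + 2 - Q| := by
          rw [← h5, abs_mul]
          norm_num
        have h8 : (4 : ℤ) ^ (n + 1) = 4 * 4 ^ n := by ring
        rw [h8] at hlt
        omega)
      have h7 : |f (j + Q + 1) - f (j + Q)| ≤ (4 * n + 1) * B := by
        rw [hY, show (4 : ℤ) * j' + 2 + 1 = 4 * j' + 3 by ring]
        exact h6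
      push_cast
      linarith
    · have h6 : |f (j + Q + 1) - f (j + Q)| ≤ B :=
        (step_le_bv f rfl hr).trans (hs1 _ g1 (by omega))
      push_cast
      nlinarith

/-- the crossings `j` of `C_R` with `4^i |3 j + 2 - Q| ≤ 3 N` -/
noncomputable def Jset (N Q c0 c1 : ℤ) (i : ℕ) : Finset ℤ :=
  (Ico c0 (c1 - 1)).filter (fun j => 4 ^ i * |3 * j + 2 - Q| ≤ 3 * N)

/-- one level -/
lemma level {N : ℤ} (h1 : ∑ j ∈ Ico c0 c1, bv f j ≤ B)
    (h2 : ∑ j ∈ Ico c0 c1, |f (j + Q) - f (4 * j)| ≤ B)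
    (h4 : ∀ j, c0 ≤ j → j < c1 → c0 ≤ (j + Q + 1) / 4 ∧ (j + Q + 2) / 4 < c1) (i : ℕ) :
    ∑ j ∈ Jset N Q c0 c1 i, |f (4 * j + 3) - f (4 * j + 2)| ≤
      5 * B + ∑ j ∈ Jset N Q c0 c1 (i + 1), |f (4 * j + 3) - f (4 * j + 2)| := by
  have hsub : Jset N Q c0 c1 i ⊆ Ico c0 c1 := by
    intro j hj
    have := (mem_Ico.1 (mem_filter.1 hj).1)
    exact mem_Ico.2 ⟨this.1, by omega⟩
  have hshift : ∀ F : ℤ → ℝ, (∀ j, 0 ≤ F j) →
      ∑ j ∈ Jset N Q c0 c1 i, F (j + 1) ≤ ∑ j ∈ Ico c0 c1, F j := by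
    intro F hF
    have : ∑ j ∈ Jset N Q c0 c1 i, F (j + 1) =
        ∑ j ∈ (Jset N Q c0 c1 i).image (fun j => j + 1), F j := by
      rw [sum_image]
      intro a _ b _ hab
      simpa using hab
    rw [this]
    apply sum_le_sum_of_subset_of_nonneg
    · intro j hj
      obtain ⟨j', hj', rfl⟩ := mem_image.1 hj
      have := (mem_Ico.1 (mem_filter.1 hj').1)
      exact mem_Ico.2 ⟨by omega, by omega⟩
    · intro j _ _
      exact hF j
  have s1 : ∑ j ∈ Jset N Q c0 c1 i, bv f j ≤ B :=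
    (sum_le_sum_of_subset_of_nonneg hsub fun j _ _ => bv_nonneg f j).trans h1
  have s2 : ∑ j ∈ Jset N Q c0 c1 i, bv f (j + 1) ≤ B :=
    (hshift (fun j => bv f j) (bv_nonneg f)).trans h1
  have s3 : ∑ j ∈ Jset N Q c0 c1 i, |f (j + Q) - f (4 * j)| ≤ B :=
    (sum_le_sum_of_subset_of_nonneg hsub fun j _ _ => abs_nonneg _).trans h2
  have s4 : ∑ j ∈ Jset N Q c0 c1 i, |f (j + 1 + Q) - f (4 * (j + 1))| ≤ B :=
    (hshift (fun j => |f (j + Q) - f (4 * j)|) (fun j => abs_nonneg _)).trans h2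
  -- the images
  have s5 : ∑ j ∈ Jset N Q c0 c1 i, |f (j + Q + 1) - f (j + Q)| ≤
      B + ∑ j ∈ Jset N Q c0 c1 (i + 1), |f (4 * j + 3) - f (4 * j + 2)| := by
    have e1 : ∑ j ∈ Jset N Q c0 c1 i, |f (j + Q + 1) - f (j + Q)| =
        ∑ Y ∈ (Jset N Q c0 c1 i).image (fun j => j + Q), |f (Y + 1) - f Y| := by
      rw [sum_image]
      intro a _ b _ hab
      simpa using hab
    rw [e1]
    set 𝒴 := (Jset N Q c0 c1 i).image (fun j => j + Q) with hY
    have hmem : ∀ Y ∈ 𝒴, Y - Q ∈ Jset N Q c0 c1 i := by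
      intro Y hY'
      obtain ⟨j, hj, rfl⟩ := mem_image.1 hY'
      simpa using hj
    have hmaps : ∀ Y ∈ 𝒴, (Y + 1) / 4 ∈ Ico c0 c1 := by
      intro Y hY'
      have hj := hmem Y hY'
      have hj2 := mem_Ico.1 (mem_filter.1 hj).1
      obtain ⟨g1, g2⟩ := h4 (Y - Q) hj2.1 (by omega)
      rw [mem_Ico]
      have e3 : Y - Q + Q + 2 = Y + 2 := by ring
      have e4 : Y - Q + Q + 1 = Y + 1 := by ring
      rw [e3] at g2
      rw [e4] at g1
      omega
    rw [← sum_fiberwise_of_maps_to hmaps]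
    have e2 : ∀ j ∈ Ico c0 c1, ∑ Y ∈ 𝒴.filter (fun Y => (Y + 1) / 4 = j), |f (Y + 1) - f Y| ≤
        bv f j + (if j ∈ Jset N Q c0 c1 (i + 1) then |f (4 * j + 3) - f (4 * j + 2)| else 0) := by
      intro j hj
      by_cases h4Y : 4 * j + 2 ∈ 𝒴
      · have hin : j ∈ Jset N Q c0 c1 (i + 1) := by
          have hj' := hmem _ h4Y
          obtain ⟨hj2, hj3⟩ := mem_filter.1 hj'
          obtain ⟨hj4, hj5⟩ := mem_Ico.1 hj2
          obtain ⟨g1, g2⟩ := h4 (4 * j + 2 - Q) hj4 (by omega)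
          refine mem_filter.2 ⟨mem_Ico.2 ⟨by omega, by omega⟩, ?_⟩
          have h5 : 3 * (4 * j + 2 - Q) + 2 - Q = 4 * (3 * j + 2 - Q) := by ring
          rw [h5, abs_mul] at hj3
          calc (4 : ℤ) ^ (i + 1) * |3 * j + 2 - Q| = 4 ^ i * (|4| * |3 * j + 2 - Q|) := by
                norm_num
                ring
            _ ≤ 3 * N := hj3
        rw [if_pos hin]
        have hsub2 : 𝒴.filter (fun Y => (Y + 1) / 4 = j) ⊆
            {4 * j - 1, 4 * j, 4 * j + 1, 4 * j + 2} := by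
          intro Y hY'
          have := (mem_filter.1 hY').2
          simp only [mem_insert, mem_singleton]
          omega
        refine (sum_le_sum_of_subset_of_nonneg hsub2 fun _ _ _ => abs_nonneg _).trans ?_
        rw [sum_insert (by simp only [mem_insert, mem_singleton]; omega), sum_insert (by simp only [mem_insert, mem_singleton]; omega), sum_insert (by simp only [mem_insert, mem_singleton]; omega), sum_singleton]
        unfold bv
        rw [show (4 : ℤ) * j - 1 + 1 = 4 * j by ring, show (4 : ℤ) * j + 1 + 1 = 4 * j + 2 by ring,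
          show (4 : ℤ) * j + 2 + 1 = 4 * j + 3 by ring]
        linarith
      · have hsub2 : 𝒴.filter (fun Y => (Y + 1) / 4 = j) ⊆
            {4 * j - 1, 4 * j, 4 * j + 1} := by
          intro Y hY'
          have h5 := (mem_filter.1 hY').2
          have h6 : Y ≠ 4 * j + 2 := by
            rintro rfl
            exact h4Y (mem_filter.1 hY').1
          simp only [mem_insert, mem_singleton]
          omega
        have e3 : ∑ Y ∈ 𝒴.filter (fun Y => (Y + 1) / 4 = j), |f (Y + 1) - f Y| ≤ bv f j := by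
          refine (sum_le_sum_of_subset_of_nonneg hsub2 fun _ _ _ => abs_nonneg _).trans ?_
          rw [sum_insert (by simp only [mem_insert, mem_singleton]; omega), sum_insert (by simp only [mem_insert, mem_singleton]; omega), sum_singleton]
          unfold bv
          rw [show (4 : ℤ) * j - 1 + 1 = 4 * j by ring,
            show (4 : ℤ) * j + 1 + 1 = 4 * j + 2 by ring]
          linarith
        have e4 : (0 : ℝ) ≤ if j ∈ Jset N Q c0 c1 (i + 1) then
            |f (4 * j + 3) - f (4 * j + 2)| else 0 := by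
          split_ifs
          · exact abs_nonneg _
          · exact le_refl _
        linarith
    refine (sum_le_sum e2).trans ?_
    rw [sum_add_distrib]
    have e5 : ∑ j ∈ Ico c0 c1, (if j ∈ Jset N Q c0 c1 (i + 1) then
        |f (4 * j + 3) - f (4 * j + 2)| else 0) =
        ∑ j ∈ Jset N Q c0 c1 (i + 1), |f (4 * j + 3) - f (4 * j + 2)| := by
      rw [← sum_filter]
      congr 1
      ext j
      rw [mem_filter]
      constructor
      · exact fun h => h.2
      · intro h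
        have := (mem_Ico.1 (mem_filter.1 h).1)
        exact ⟨mem_Ico.2 ⟨this.1, by omega⟩, h⟩
    rw [e5]
    linarith
  have s6 : ∑ j ∈ Jset N Q c0 c1 i, |f (4 * j + 3) - f (4 * j + 2)| ≤
      ∑ j ∈ Jset N Q c0 c1 i, (bv f j + |f (j + Q) - f (4 * j)| +
      |f (j + Q + 1) - f (j + Q)| + |f (j + 1 + Q) - f (4 * (j + 1))| + bv f (j + 1)) :=
    sum_le_sum fun j _ => cross_le f j Q
  rw [sum_add_distrib, sum_add_distrib, sum_add_distrib, sum_add_distrib] at s6
  linarith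

end

/-- BASE. -/
theorem base {f : ℤ → ℝ} {B : ℝ} {s : ℕ} {N Q D c0 c1 : ℤ} (hs : 1 ≤ s) (hN : N = 4 ^ s)
    (hQ : Q = 2 * N + D) (hD : 4 * |D| ≤ N) (hlen : c1 - c0 ≤ N)
    (hne : c0 < c1)
    (h1 : ∑ j ∈ Ico c0 c1, bv f j ≤ B)
    (h2 : ∑ j ∈ Ico c0 c1, |f (j + Q) - f (4 * j)| ≤ B)
    (h4 : ∀ j, c0 ≤ j → j < c1 → c0 ≤ (j + Q + 1) / 4 ∧ (j + Q + 2) / 4 < c1)
    (h6 : D ≠ 0 → ∀ j0, 3 * j0 + 2 = Q →
      |f (j0 - Q) - f (4 * j0)| ≤ B ∧ |f (j0 + 1 - Q) - f (4 * (j0 + 1))| ≤ B ∧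
      N ≤ 30 * (j0 - c0) ∧ N < 30 * (c1 - j0 - 1) ∧
      bv f ((j0 - Q + 1) / 4) ≤ B ∧ bv f ((j0 - Q + 1) / 4 + 1) ≤ B ∧
      |f ((j0 - Q + 1) / 4 + (Q + N)) - f (4 * ((j0 - Q + 1) / 4))| ≤ B ∧
      |f ((j0 - Q + 1) / 4 + 1 + (Q + N)) - f (4 * ((j0 - Q + 1) / 4 + 1))| ≤ B)
    (h7 : D = 0 → ∀ j0, 3 * j0 + 2 = Q →
      |f (j0 + (Q + N)) - f (4 * j0)| ≤ B ∧ |f (j0 + 1 + (Q + N)) - f (4 * (j0 + 1))| ≤ B ∧
      c0 ≤ j0 ∧ 4 * (j0 + 1) + N < 4 * c1) :
    ∑ X ∈ Ico (4 * c0 - 1) (4 * c1 - 2), |f (X + 1) - f X| ≤ 20 * (s + 1) * B := by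
  have hs1 : ∀ j, c0 ≤ j → j < c1 → bv f j ≤ B := fun j ha hb =>
    (single_le_sum (f := fun j => bv f j) (fun i _ => bv_nonneg f i)
      (mem_Ico.2 ⟨ha, hb⟩)).trans h1
  have hB : 0 ≤ B := (bv_nonneg f c0).trans (hs1 c0 le_rfl hne)
  have hN4 : N % 4 = 0 := by
    obtain ⟨r, rfl⟩ : ∃ r, s = r + 1 := ⟨s - 1, by omega⟩
    rw [hN, pow_succ]
    omega
  have hN0 : 0 < N := by rw [hN]; positivity
  have hDa := abs_le.1 (le_refl |D|)
  -- position of the fixed point
  have hfix1 : 3 * c0 ≤ Q + 1 := by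
    have := (h4 c0 le_rfl hne).1
    omega
  have hfix2 : Q + 1 < 3 * c1 := by
    have := (h4 (c1 - 1) (by omega) (by omega)).2
    omega
  have hN3 : ∀ j, c0 ≤ j → j + 1 < c1 → |3 * j + 2 - Q| ≤ 3 * N := by
    intro j ha hb
    rw [abs_le]
    constructor <;> omega
  -- all levels
  have hlev : ∀ i : ℕ, ∑ j ∈ Jset N Q c0 c1 0, |f (4 * j + 3) - f (4 * j + 2)| ≤
      5 * i * B + ∑ j ∈ Jset N Q c0 c1 i, |f (4 * j + 3) - f (4 * j + 2)| := by
    intro i
    induction i with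
    | zero => simp
    | succ i ih =>
      have := level (N := N) h1 h2 h4 i
      push_cast
      linarith
  have hJ0 : Jset N Q c0 c1 0 = Ico c0 (c1 - 1) := by
    unfold Jset
    rw [filter_eq_self]
    intro j hj
    rw [mem_Ico] at hj
    rw [pow_zero, one_mul]
    exact hN3 j hj.1 (by omega)
  -- the fixed crossing
  have hfixed : ∀ j0, 3 * j0 + 2 = Q → c0 ≤ j0 → j0 + 1 < c1 →
      |f (4 * j0 + 3) - f (4 * j0 + 2)| ≤ (4 * s + 9) * B := by
    intro j0 hj0 ha hb
    have hs0 : (0 : ℝ) ≤ s := Nat.cast_nonneg s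
    have hsB : 0 ≤ (s : ℝ) * B := mul_nonneg hs0 hB
    by_cases hD0 : D = 0
    · obtain ⟨g1, g2, g3, g4⟩ := h7 hD0 j0 hj0
      have hc := cross_le f j0 (Q + N)
      have e1 := hs1 j0 ha (by omega)
      have e2 := hs1 (j0 + 1) (by omega) hb
      set j1 := (j0 + (Q + N) - 2) / 4 with hj1
      have hY : j0 + (Q + N) = 4 * j1 + 2 := by omega
      have h5 := single_cross h1 h2 h4 s j1 (by omega) (by omega) (by omega) (by
        rw [← hN, abs_lt]
        constructor <;> omega)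
      have h8 : |f (j0 + (Q + N) + 1) - f (j0 + (Q + N))| ≤ (4 * s + 1) * B := by
        rw [hY, show (4 : ℤ) * j1 + 2 + 1 = 4 * j1 + 3 by ring]
        exact h5
      linarith
    · obtain ⟨g1, g2, g3, g4, g5, g6, g7, g8⟩ := h6 hD0 j0 hj0
      have hc := cross_le f j0 (-Q)
      have e1 := hs1 j0 ha (by omega)
      have e2 := hs1 (j0 + 1) (by omega) hb
      rw [← sub_eq_add_neg, ← sub_eq_add_neg] at hc
      have key : |f (j0 - Q + 1) - f (j0 - Q)| ≤ (4 * s + 5) * B := by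
        by_cases hr : (j0 - Q) % 4 = 2
        · set j1 := (j0 - Q - 2) / 4 with hj1
          have hY : j0 - Q = 4 * j1 + 2 := by omega
          have hb1 : (j0 - Q + 1) / 4 = j1 := by omega
          rw [hb1] at g5 g6 g7 g8
          have hc2 := cross_le f j1 (Q + N)
          have key2 : |f (j1 + (Q + N) + 1) - f (j1 + (Q + N))| ≤ (4 * s + 1) * B := by
            by_cases hr2 : (j1 + (Q + N)) % 4 = 2
            · set j2 := (j1 + (Q + N) - 2) / 4 with hj2
              have hY2 : j1 + (Q + N) = 4 * j2 + 2 := by omega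
              have h8 : 8 * (j2 - j0) = -D := by omega
              have h5 := single_cross h1 h2 h4 s j2 (by omega) (by omega) (by omega) (by
                rw [← hN, abs_lt]
                constructor <;> omega)
              rw [hY2, show (4 : ℤ) * j2 + 2 + 1 = 4 * j2 + 3 by ring]
              exact h5
            · have h9 := (step_le_bv f rfl hr2).trans (hs1 ((j1 + (Q + N) + 1) / 4)
                (by omega) (by omega))
              linarith
          rw [hY, show (4 : ℤ) * j1 + 2 + 1 = 4 * j1 + 3 by ring]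
          linarith
        · have h9 := (step_le_bv f rfl hr).trans g5
          linarith
      linarith
  -- the last level
  have hlast : ∑ j ∈ Jset N Q c0 c1 (s + 1), |f (4 * j + 3) - f (4 * j + 2)| ≤
      (4 * s + 9) * B := by
    have hmem : ∀ j ∈ Jset N Q c0 c1 (s + 1), 3 * j + 2 = Q ∧ c0 ≤ j ∧ j + 1 < c1 := by
      intro j hj
      obtain ⟨hj1, hj2⟩ := mem_filter.1 hj
      rw [mem_Ico] at hj1
      refine ⟨?_, hj1.1, by omega⟩
      have h8 : (4 : ℤ) ^ (s + 1) = 4 * N := by rw [hN]; ring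
      rw [h8] at hj2
      by_contra hcon
      have h9 : 1 ≤ |3 * j + 2 - Q| := Int.one_le_abs (by omega)
      nlinarith
    have hcard : (Jset N Q c0 c1 (s + 1)).card ≤ 1 := by
      rw [card_le_one]
      intro a ha b hb
      have := (hmem a ha).1
      have := (hmem b hb).1
      omega
    calc ∑ j ∈ Jset N Q c0 c1 (s + 1), |f (4 * j + 3) - f (4 * j + 2)| ≤
        ∑ _j ∈ Jset N Q c0 c1 (s + 1), (4 * s + 9) * B :=
          sum_le_sum fun j hj => hfixed j (hmem j hj).1 (hmem j hj).2.1 (hmem j hj).2.2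
      _ = (Jset N Q c0 c1 (s + 1)).card * ((4 * s + 9) * B) := by
          rw [sum_const, nsmul_eq_mul]
      _ ≤ 1 * ((4 * s + 9) * B) := by
          apply mul_le_mul_of_nonneg_right _ (by positivity)
          exact_mod_cast hcard
      _ = _ := one_mul _
  have hG := (hlev (s + 1)).trans (add_le_add_right hlast _)
  rw [hJ0] at hG
  -- the sum over all unit steps
  have hmaps : ∀ X ∈ Ico (4 * c0 - 1) (4 * c1 - 2), (X + 1) / 4 ∈ Ico c0 c1 := by
    intro X hX
    rw [mem_Ico] at hX ⊢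
    omega
  rw [← sum_fiberwise_of_maps_to hmaps]
  have e2 : ∀ j ∈ Ico c0 c1, ∑ X ∈ (Ico (4 * c0 - 1) (4 * c1 - 2)).filter
      (fun X => (X + 1) / 4 = j), |f (X + 1) - f X| ≤
      bv f j + (if j ∈ Ico c0 (c1 - 1) then |f (4 * j + 3) - f (4 * j + 2)| else 0) := by
    intro j hj
    rw [mem_Ico] at hj
    by_cases h5 : j + 1 < c1
    · rw [if_pos (mem_Ico.2 ⟨hj.1, by omega⟩)]
      have hsub2 : (Ico (4 * c0 - 1) (4 * c1 - 2)).filter (fun X => (X + 1) / 4 = j) ⊆
          {4 * j - 1, 4 * j, 4 * j + 1, 4 * j + 2} := by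
        intro Y hY'
        have := (mem_filter.1 hY').2
        simp only [mem_insert, mem_singleton]
        omega
      refine (sum_le_sum_of_subset_of_nonneg hsub2 fun _ _ _ => abs_nonneg _).trans ?_
      rw [sum_insert (by simp only [mem_insert, mem_singleton]; omega), sum_insert (by simp only [mem_insert, mem_singleton]; omega), sum_insert (by simp only [mem_insert, mem_singleton]; omega), sum_singleton]
      unfold bv
      rw [show (4 : ℤ) * j - 1 + 1 = 4 * j by ring, show (4 : ℤ) * j + 1 + 1 = 4 * j + 2 by ring,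
        show (4 : ℤ) * j + 2 + 1 = 4 * j + 3 by ring]
      linarith
    · have hni : j ∉ Ico c0 (c1 - 1) := by
        rw [mem_Ico]
        omega
      rw [if_neg hni, add_zero]
      have hsub2 : (Ico (4 * c0 - 1) (4 * c1 - 2)).filter (fun X => (X + 1) / 4 = j) ⊆
          {4 * j - 1, 4 * j, 4 * j + 1} := by
        intro Y hY'
        obtain ⟨h6, h7⟩ := mem_filter.1 hY'
        rw [mem_Ico] at h6
        simp only [mem_insert, mem_singleton]
        omega
      refine (sum_le_sum_of_subset_of_nonneg hsub2 fun _ _ _ => abs_nonneg _).trans ?_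
      rw [sum_insert (by simp only [mem_insert, mem_singleton]; omega), sum_insert (by simp only [mem_insert, mem_singleton]; omega), sum_singleton]
      unfold bv
      rw [show (4 : ℤ) * j - 1 + 1 = 4 * j by ring, show (4 : ℤ) * j + 1 + 1 = 4 * j + 2 by ring]
      linarith
  refine (sum_le_sum e2).trans ?_
  rw [sum_add_distrib]
  have e5 : ∑ j ∈ Ico c0 c1, (if j ∈ Ico c0 (c1 - 1) then
      |f (4 * j + 3) - f (4 * j + 2)| else 0) =
      ∑ j ∈ Ico c0 (c1 - 1), |f (4 * j + 3) - f (4 * j + 2)| := by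
    rw [← sum_filter]
    congr 1
    ext j
    rw [mem_filter, mem_Ico, mem_Ico]
    omega
  rw [e5]
  have hs0 : (0 : ℝ) ≤ s := Nat.cast_nonneg s
  have hsB : 0 ≤ (s : ℝ) * B := mul_nonneg hs0 hB
  push_cast at hG
  linarith

end Pool.Agent.H6.RP2
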