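import Mathlib

/-! Near `2`: the two words which resolve the crossing `4 j0 + 2 | 4 j0 + 3`, `3 j0 = Q - 2`.
A crossing `j` (between the blocks `j` and `j + 1`) is carried by the letter `(b, d)` to
`X' | X' + 1`, `X' = j + Q b + N d`; it is resolved unless `X' = 4 j' + 2`. -/

set_option autoImplicit false

namespace Pool.Agent.H6.RP2

/-- The word `(1,1), (1,0), (1,0), …`: `s` letters are unresolved, the crossings are
`j0, j0 + 4^(s-1), …, j0 + 1`, and the next letter resolves. -/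
theorem cut_word_A {s : ℕ} {Q j0 : ℤ} (hj : 3 * j0 = Q - 2) :
    ∃ j b d : ℕ → ℤ, j 0 = j0 ∧ (∀ i, b i = 1) ∧ (d 0 = 1) ∧ (∀ i, 1 ≤ i → d i = 0) ∧
      (∀ i < s + 1, 4 * j (i + 1) + 2 = j i + Q * b i + 4 ^ (s + 1) * d i) ∧
      (∀ i, 1 ≤ i → i ≤ s + 1 → j i = j0 + 4 ^ (s + 1 - i)) ∧
      (j (s + 1) + Q * b (s + 1) + 4 ^ (s + 1) * d (s + 1)) % 4 = 3 := by
  refine ⟨fun i => if i = 0 then j0 else j0 + 4 ^ (s + 1 - i), fun _ => 1,
    fun i => if i = 0 then 1 else 0, by simp, fun _ => rfl, by simp, ?_, ?_, ?_, ?_⟩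
  · intro i hi
    simp only []
    rw [if_neg (by omega)]
  · intro i hi
    simp only []
    rw [if_neg (by omega)]
    by_cases h0 : i = 0
    · subst h0
      simp only [if_true, zero_add, Nat.add_sub_cancel]
      have : (4 : ℤ) ^ (s + 1) = 4 * 4 ^ s := by ring
      rw [this]
      linarith
    · rw [if_neg h0, if_neg h0]
      have h1 : s + 1 - i = (s + 1 - (i + 1)) + 1 := by omega
      have h2 : (4 : ℤ) ^ (s + 1 - i) = 4 * 4 ^ (s + 1 - (i + 1)) := by
        rw [h1, pow_succ]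
        ring_nf
      rw [h2]
      linarith
  · intro i h1 h2
    simp only []
    rw [if_neg (by omega)]
  · simp only []
    rw [if_neg (by omega), if_neg (by omega)]
    simp only [Nat.sub_self, pow_zero]
    omega

/-- The word `(-1,0), (1,1), (1,0), (1,0), …`, for `D0 = Q - 2 N ≠ 0`. -/
theorem cut_word_B {s : ℕ} {N Q D0 j0 : ℤ} (hQ : Q = 2 * N + D0) (hj : 3 * j0 = Q - 2)
    (hD : D0 ≠ 0) (hDs : |D0| ≤ 4 ^ s) :
    ∃ n ≤ s + 2, ∃ j b d : ℕ → ℤ, j 0 = j0 ∧ b 0 = -1 ∧ d 0 = 0 ∧ b 1 = 1 ∧ d 1 = 1 ∧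
      (∀ i, 2 ≤ i → b i = 1 ∧ d i = 0) ∧
      (∀ i < n, 4 * j (i + 1) + 2 = j i + Q * b i + N * d i) ∧
      (j n + Q * b n + N * d n) % 4 ≠ 2 ∧
      (1 ≤ n → 6 * j 1 = -Q - 4) ∧
      (∀ i, 2 ≤ i → i ≤ n → 8 * 4 ^ (i - 2) * (j i - j0) = -D0) := by
  -- the letters
  obtain ⟨b, hb⟩ : ∃ b : ℕ → ℤ, b = fun i => if i = 0 then -1 else 1 := ⟨_, rfl⟩
  obtain ⟨d, hd⟩ : ∃ d : ℕ → ℤ, d = fun i => if i = 1 then 1 else 0 := ⟨_, rfl⟩
  have hb0 : b 0 = -1 := by rw [hb]; simp
  have hb1 : ∀ i, 1 ≤ i → b i = 1 := by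
    intro i hi
    rw [hb]
    simp only []
    rw [if_neg (by omega)]
  have hd1 : d 1 = 1 := by rw [hd]; simp
  have hd0 : d 0 = 0 := by rw [hd]; simp
  have hd2 : ∀ i, 2 ≤ i → d i = 0 := by
    intro i hi
    rw [hd]
    simp only []
    rw [if_neg (by omega)]
  -- the crossings (with floor division when resolved)
  obtain ⟨j, hj0, hjs⟩ : ∃ j : ℕ → ℤ, j 0 = j0 ∧
      ∀ i, j (i + 1) = (j i + Q * b i + N * d i - 2) / 4 :=
    ⟨fun i => Nat.rec j0 (fun i x => (x + Q * b i + N * d i - 2) / 4) i, rfl, fun _ => rfl⟩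
  -- unresolved step
  have step : ∀ i, (j i + Q * b i + N * d i) % 4 = 2 →
      4 * j (i + 1) + 2 = j i + Q * b i + N * d i := by
    intro i hi
    rw [hjs i]
    omega
  have hex : ∃ n, n ≤ s + 2 ∧ (j n + Q * b n + N * d n) % 4 ≠ 2 := by
    by_contra hcon
    push Not at hcon
    have h0 := step 0 (hcon 0 (by omega))
    have h1 := step 1 (hcon 1 (by omega))
    rw [hj0, hb0, hd0] at h0
    rw [hb1 1 le_rfl, hd1] at h1
    have h2 : 8 * (j 2 - j0) = -D0 := by
      simp only [zero_add] at h0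
      have e1 : (1 : ℕ) + 1 = 2 := rfl
      rw [e1] at h1
      linarith
    have hind : ∀ i, i ≤ s + 1 → 8 * 4 ^ i * (j (i + 2) - j0) = -D0 := by
      intro i
      induction i with
      | zero =>
        intro _
        simpa using h2
      | succ i ih =>
        intro hi
        have h3 := ih (by omega)
        have h4 := step (i + 2) (hcon (i + 2) (by omega))
        rw [hb1 (i + 2) (by omega), hd2 (i + 2) (by omega)] at h4
        have h5 : 4 * (j (i + 1 + 2) - j0) = j (i + 2) - j0 := by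
          have e1 : i + 1 + 2 = i + 2 + 1 := by omega
          rw [e1]
          linarith
        rw [← h5] at h3
        have e2 : (4 : ℤ) ^ (i + 1) = 4 * 4 ^ i := by ring
        rw [e2]
        linarith
    have hlast := hind (s + 1) le_rfl
    have hne : j (s + 1 + 2) - j0 ≠ 0 := by
      intro h
      rw [h] at hlast
      apply hD
      linarith
    have h6 : (1 : ℤ) ≤ |j (s + 1 + 2) - j0| := Int.one_le_abs hne
    have h7 : |D0| = 8 * 4 ^ (s + 1) * |j (s + 1 + 2) - j0| := by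
      rw [← abs_neg, ← hlast, abs_mul, abs_of_pos (by positivity : (0 : ℤ) < 8 * 4 ^ (s + 1))]
    have h8 : (0 : ℤ) < 4 ^ s := by positivity
    have h9 : (4 : ℤ) ^ (s + 1) = 4 * 4 ^ s := by ring
    rw [h7, h9] at hDs
    nlinarith
  classical
  obtain ⟨n, ⟨hn1, hn2⟩, hmin⟩ : ∃ n : ℕ, (n ≤ s + 2 ∧ (j n + Q * b n + N * d n) % 4 ≠ 2) ∧
      ∀ i < n, ¬ (i ≤ s + 2 ∧ (j i + Q * b i + N * d i) % 4 ≠ 2) :=
    ⟨Nat.find hex, Nat.find_spec hex, fun i hi => Nat.find_min hex hi⟩
  have hun : ∀ i < n, (j i + Q * b i + N * d i) % 4 = 2 := by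
    intro i hi
    by_contra hne
    exact hmin i hi ⟨by omega, hne⟩
  have hst : ∀ i < n, 4 * j (i + 1) + 2 = j i + Q * b i + N * d i := fun i hi => step i (hun i hi)
  refine ⟨n, hn1, j, b, d, hj0, hb0, hd0, hb1 1 le_rfl, hd1,
    fun i hi => ⟨hb1 i (by omega), hd2 i hi⟩, hst, hn2, ?_, ?_⟩
  · intro hn
    have h0 := hst 0 (by omega)
    rw [hj0, hb0, hd0] at h0
    simp only [zero_add] at h0
    linarith
  · intro i
    induction i with
    | zero => intro h; omega
    | succ i ih =>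
      intro h1 h2
      by_cases hi : i = 1
      · subst hi
        have h0 := hst 0 (by omega)
        have h3 := hst 1 (by omega)
        rw [hj0, hb0, hd0] at h0
        rw [hb1 1 le_rfl, hd1] at h3
        simp only [zero_add] at h0
        have e1 : (1 : ℕ) + 1 = 2 := rfl
        rw [e1] at h3 ⊢
        simp only [Nat.sub_self, pow_zero]
        linarith
      · have h3 := ih (by omega) (by omega)
        have h4 := hst i (by omega)
        rw [hb1 i (by omega), hd2 i (by omega)] at h4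
        have h5 : 4 * (j (i + 1) - j0) = j i - j0 := by linarith
        rw [← h5] at h3
        obtain ⟨l, rfl⟩ : ∃ l, i = l + 2 := ⟨i - 2, by omega⟩
        have e3 : l + 2 - 2 = l := by omega
        have e4 : l + 2 + 1 - 2 = l + 1 := by omega
        rw [e3] at h3
        rw [e4]
        have e2 : (4 : ℤ) ^ (l + 1) = 4 * 4 ^ l := by ring
        rw [e2]
        linarith

end Pool.Agent.H6.RP2
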